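import Mathlib

/-!
Analysis half of MP_f6626d_co: gap kernels (transfer matrices of pairs of strands),
their resolvents, and the exact statements of the modules.
Index of a piece type: i = (m, h), m = half length, h = height.
-/

set_option autoImplicit false

open Finset Filter Topology

namespace Pool.Agent.Gap

/-- Transfer kernel of a two strand model: `K i g g'` is the weight of the pieces of type
`i = (half length, height)` from gap `g` to gap `g'`; `T i d` the translation invariant kernel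
which `K i` equals away from the wall. `rho` is the critical weight of a unit of half length. -/
structure GapKernel where
  S : Finset (ℕ × ℕ)
  R : ℕ
  K : ℕ × ℕ → ℤ → ℤ → ℝ
  T : ℕ × ℕ → ℤ → ℝ
  rho : ℝ
  i0_mem : (1, 1) ∈ S
  pos_mem : ∀ i ∈ S, 1 ≤ i.1 ∧ 1 ≤ i.2
  T_nonneg : ∀ i d, 0 ≤ T i d
  T_even : ∀ i d, T i (-d) = T i d
  T_range : ∀ i d, (R : ℤ) < |d| → T i d = 0
  K_nonneg : ∀ i g g', 0 ≤ K i g g'
  K_symm : ∀ i g g', K i g g' = K i g' g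
  K_le : ∀ i g g', K i g g' ≤ T i (g' - g)
  K_out : ∀ i g g', g ≤ 0 → K i g g' = 0
  K_eq : ∀ i g g', 1 ≤ g → 1 ≤ g' → (R : ℤ) < g → K i g g' = T i (g' - g)
  T_one : T (1, 1) 0 = 2 ∧ T (1, 1) 1 = 1 ∧ ∀ d : ℤ, 2 ≤ |d| → T (1, 1) d = 0
  K_one : ∀ g g', 1 ≤ g → 1 ≤ g' → K (1, 1) g g' = T (1, 1) (g' - g)
  rho_pos : 0 < rho
  crit : ∑ i ∈ S, rho ^ i.1 * ∑ d ∈ Icc (-(R : ℤ)) R, T i d = 1

namespace GapKernel

variable (G : GapKernel)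

/-- total mass of a piece type -/
noncomputable def tot (i : ℕ × ℕ) : ℝ := ∑ d ∈ Icc (-(G.R : ℤ)) G.R, G.T i d

/-- mean half length of a piece at criticality -/
noncomputable def mbar : ℝ := ∑ i ∈ G.S, (i.1 : ℝ) * G.rho ^ i.1 * G.tot i

/-- mean height of a piece at criticality -/
noncomputable def hbar : ℝ := ∑ i ∈ G.S, (i.2 : ℝ) * G.rho ^ i.1 * G.tot i

/-- variance of the change of gap at criticality -/
noncomputable def sig2 : ℝ :=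
  ∑ i ∈ G.S, G.rho ^ i.1 * ∑ d ∈ Icc (-(G.R : ℤ)) G.R, (d : ℝ) ^ 2 * G.T i d

/-- area weight: `exp(-eps * h * (g + g'))` -/
noncomputable def wt (eps : ℝ) (i : ℕ × ℕ) (g g' : ℤ) : ℝ :=
  Real.exp (-(eps * (i.2 : ℝ) * ((g : ℝ) + (g' : ℝ))))

/-- critical real kernel without area weight -/
noncomputable def Kc (g g' : ℤ) : ℝ := ∑ i ∈ G.S, G.rho ^ i.1 * G.K i g g'

/-- kernel with `j` marks on the half length: `sum m^j z^m K_m`  (`j = 0`: the kernel itself) -/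
noncomputable def Kz (j : ℕ) (eps : ℝ) (z : ℂ) (g g' : ℤ) : ℂ :=
  ∑ i ∈ G.S, ((i.1 : ℂ)) ^ j * z ^ i.1 * ((G.K i g g' * wt eps i g g' : ℝ) : ℂ)

/-- application of the kernel (gaps restricted to `1..N`) -/
noncomputable def Kap (j : ℕ) (eps : ℝ) (z : ℂ) (N : ℕ) (f : ℤ → ℂ) (g : ℤ) : ℂ :=
  ∑ g' ∈ Icc (1 : ℤ) N, G.Kz j eps z g g' * f g'

/-- the operator `1 - K` -/
noncomputable def Lop (eps : ℝ) (z : ℂ) (N : ℕ) (f : ℤ → ℂ) (g : ℤ) : ℂ :=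
  f g - G.Kap 0 eps z N f g

/-- `v` (supported on `1..N`) solves `(1 - K) v = e` on `1..N` -/
def Solves (eps : ℝ) (z : ℂ) (N : ℕ) (v e : ℤ → ℂ) : Prop :=
  (∀ g : ℤ, (g < 1 ∨ (N : ℤ) < g) → v g = 0) ∧
    ∀ g ∈ Icc (1 : ℤ) N, G.Lop eps z N v g = e g

end GapKernel

/-- functions supported on the gaps `1..N` -/
def Supp (N : ℕ) (f : ℤ → ℂ) : Prop := ∀ g : ℤ, (g < 1 ∨ (N : ℤ) < g) → f g = 0

/-- square of the l2 norm -/
noncomputable def nsq (N : ℕ) (f : ℤ → ℂ) : ℝ := ∑ g ∈ Icc (1 : ℤ) N, ‖f g‖ ^ 2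

/-- Dirichlet energy -/
noncomputable def En (N : ℕ) (f : ℤ → ℂ) : ℝ := ∑ g ∈ Icc (0 : ℤ) N, ‖f (g + 1) - f g‖ ^ 2

/-- potential energy -/
noncomputable def Pot (eps : ℝ) (N : ℕ) (f : ℤ → ℂ) : ℝ :=
  ∑ g ∈ Icc (1 : ℤ) N, (1 - Real.exp (-(eps * (g : ℝ)))) * ‖f g‖ ^ 2

/-- sesquilinear pairing -/
noncomputable def form (N : ℕ) (f h : ℤ → ℂ) : ℂ :=
  ∑ g ∈ Icc (1 : ℤ) N, (starRingEnd ℂ) (f g) * h g

/-- the function multiplied by `g^k` -/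
noncomputable def mulg (k : ℕ) (f : ℤ → ℂ) (g : ℤ) : ℂ := ((g : ℂ)) ^ k * f g

/-- l1 norm on `1..R'` -/
noncomputable def l1 (R' : ℕ) (e : ℤ → ℂ) : ℝ := ∑ g ∈ Icc (1 : ℤ) R', ‖e g‖

/-! ### Coercivity and resolvent -/

/-- MODULE C2 (each bilinear form is close to total mass times the dot product). -/
def C2_Stmt : Prop := ∀ G : GapKernel, ∃ C : ℝ, 0 < C ∧
  ∀ (N : ℕ) (eps : ℝ) (i : ℕ × ℕ) (f h : ℤ → ℂ), i ∈ G.S → 0 ≤ eps → Supp N f → Supp N h →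
    ‖(G.tot i : ℂ) * ∑ g ∈ Icc (1 : ℤ) N, f g * h g
      - ∑ g ∈ Icc (1 : ℤ) N, ∑ g' ∈ Icc (1 : ℤ) N,
          ((G.K i g g' * GapKernel.wt eps i g g' : ℝ) : ℂ) * f g * h g'‖
      ≤ C * (Real.sqrt (En N f + Pot eps N f) * Real.sqrt (En N h + Pot eps N h))

/-- MODULE C : coercivity. -/
def C_Stmt : Prop := ∀ G : GapKernel, ∃ c : ℝ, 0 < c ∧
  ∀ (N : ℕ) (eps : ℝ) (z : ℂ) (f : ℤ → ℂ), 0 ≤ eps → ‖z‖ ≤ G.rho → Supp N f →
    c * (‖(G.rho : ℂ) - z‖ * nsq N f + En N f + Pot eps N f)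
      ≤ ‖form N f (G.Lop eps z N f)‖

/-- MODULE RE : existence and resolvent bound (from C). -/
def RE_Stmt : Prop := ∀ G : GapKernel, ∃ C : ℝ, 0 < C ∧
  ∀ (N : ℕ) (eps : ℝ) (z : ℂ), 0 ≤ eps → ‖z‖ ≤ G.rho →
    (∀ e : ℤ → ℂ, ∃ v : ℤ → ℂ, G.Solves eps z N v e) ∧
    (∀ v v' e : ℤ → ℂ, G.Solves eps z N v e → G.Solves eps z N v' e → v = v') ∧
    (∀ v e : ℤ → ℂ, G.Solves eps z N v e →
      ‖(G.rho : ℂ) - z‖ * Real.sqrt (nsq N v) ≤ C * Real.sqrt (nsq N e) ∧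
      En N v + Pot eps N v ≤ C * (Real.sqrt (nsq N v) * Real.sqrt (nsq N e)))

/-- MODULE SUP : sup bound for sources supported near the wall (maximum principle), from C. -/
def SUP_Stmt : Prop := ∀ (G : GapKernel) (R' : ℕ), ∃ C : ℝ, 0 < C ∧
  ∀ (N : ℕ) (eps : ℝ) (z : ℂ) (v e : ℤ → ℂ), 0 ≤ eps → ‖z‖ ≤ G.rho →
    G.Solves eps z N v e → (∀ g : ℤ, (R' : ℤ) < g → e g = 0) →
    (∀ g, ‖v g‖ ≤ C * l1 R' e) ∧ En N v + Pot eps N v ≤ C * (l1 R' e) ^ 2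

/-- MODULE W : weighted bounds for sources supported near the wall (from C, SUP). -/
def W_Stmt : Prop := ∀ (G : GapKernel) (R' : ℕ), ∃ C : ℝ, 0 < C ∧
  ∀ (N : ℕ) (eps : ℝ) (z : ℂ) (v e : ℤ → ℂ), 0 ≤ eps → ‖z‖ ≤ G.rho → z ≠ (G.rho : ℂ) →
    G.Solves eps z N v e → (∀ g : ℤ, (R' : ℤ) < g → e g = 0) →
    (∀ k : ℕ, k ≤ 2 → nsq N (mulg k v)
        ≤ C * (l1 R' e) ^ 2 / (Real.sqrt ‖(G.rho : ℂ) - z‖ * ‖(G.rho : ℂ) - z‖ ^ k)) ∧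
    (∀ k : ℕ, 1 ≤ k → k ≤ 2 → En N (mulg k v) + Pot eps N (mulg k v)
        ≤ C * (l1 R' e) ^ 2 * Real.sqrt ‖(G.rho : ℂ) - z‖ / ‖(G.rho : ℂ) - z‖ ^ k)

/-! ### The critical solution -/

/-- MODULE VEX : bounded nonnegative finite energy solution at criticality (from C, RE, SUP). -/
def VEX_Stmt : Prop := ∀ (G : GapKernel) (R' : ℕ) (s : ℤ → ℝ), (∀ g, 0 ≤ s g) →
  (∀ g : ℤ, (g < 1 ∨ (R' : ℤ) < g) → s g = 0) →
  ∃ v : ℤ → ℝ, (∀ g ≤ 0, v g = 0) ∧ (∀ g, 0 ≤ v g) ∧ (∃ C : ℝ, ∀ g, v g ≤ C) ∧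
    (∃ C : ℝ, ∀ N : ℕ, ∑ g ∈ Icc (0 : ℤ) N, (v (g + 1) - v g) ^ 2 ≤ C) ∧
    (∀ g : ℤ, 1 ≤ g → v g = s g + ∑ g' ∈ Icc (g - G.R) (g + G.R), G.Kc g g' * v g')

/-- MODULE VLIM : such a solution tends to a positive constant with a rate (sequence lemma). -/
def VLIM_Stmt : Prop := ∀ (G : GapKernel) (R' : ℕ) (s v : ℤ → ℝ), (∀ g, 0 ≤ s g) →
  (∃ g, 0 < s g) → (∀ g : ℤ, (g < 1 ∨ (R' : ℤ) < g) → s g = 0) →
  (∀ g ≤ 0, v g = 0) → (∀ g, 0 ≤ v g) → (∃ C : ℝ, ∀ g, v g ≤ C) →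
  (∃ C : ℝ, ∀ N : ℕ, ∑ g ∈ Icc (0 : ℤ) N, (v (g + 1) - v g) ^ 2 ≤ C) →
  (∀ g : ℤ, 1 ≤ g → v g = s g + ∑ g' ∈ Icc (g - G.R) (g + G.R), G.Kc g g' * v g') →
  ∃ A : ℝ, 0 < A ∧ ∃ C : ℝ, ∀ N : ℕ, ∑ g ∈ Icc (1 : ℤ) N, (g : ℝ) ^ 2 * (v g - A) ^ 2 ≤ C

/-! ### The staircase kernel -/

/-- nearest neighbour kernel -/
noncomputable def nnT (d : ℤ) : ℝ := if d = 0 then 2 else if |d| = 1 then 1 else 0

/-- the kernel of staircase polygons -/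
noncomputable def stair : GapKernel where
  S := {(1, 1)}
  R := 1
  K := fun _ g g' => if 1 ≤ g ∧ 1 ≤ g' then nnT (g' - g) else 0
  T := fun _ d => nnT d
  rho := 1 / 4
  i0_mem := by simp
  pos_mem := by simp
  T_nonneg := by intro i d; unfold nnT; split_ifs <;> norm_num
  T_even := by intro i d; unfold nnT; simp
  T_range := by
    intro i d h
    have h0 : d ≠ 0 := by rintro rfl; simp at h
    have h1 : |d| ≠ 1 := by intro h1; rw [h1] at h; simp at h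
    simp [nnT, h0, h1]
  K_nonneg := by intro i g g'; unfold nnT; split_ifs <;> norm_num
  K_symm := by
    intro i g g'
    have h1 : |g' - g| = |g - g'| := abs_sub_comm _ _
    have h2 : (g' - g = 0) ↔ (g - g' = 0) := by omega
    unfold nnT
    simp only [h1, h2, and_comm]
  K_le := by
    intro i g g'
    split_ifs
    · exact le_rfl
    · unfold nnT; split_ifs <;> norm_num
  K_out := by intro i g g' h; rw [if_neg]; omega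
  K_eq := by intro i g g' h1 h2 _; rw [if_pos ⟨h1, h2⟩]
  T_one := by
    refine ⟨by simp [nnT], by simp [nnT], fun d hd => ?_⟩
    have h0 : d ≠ 0 := by rintro rfl; simp at hd
    have h1 : |d| ≠ 1 := by omega
    simp [nnT, h0, h1]
  K_one := by intro g g' h1 h2; rw [if_pos ⟨h1, h2⟩]
  rho_pos := by norm_num
  crit := by
    have : Icc (-((1 : ℕ) : ℤ)) ((1 : ℕ) : ℤ) = {-1, 0, 1} := by decide
    rw [this]
    simp [nnT]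
    norm_num

/-- the source of the staircase model: `z` at gap 1 -/
noncomputable def src1 (z : ℂ) (g : ℤ) : ℂ := if g = 1 then z else 0

/-- MODULE ST1 : the staircase solution is close to 1 near the wall (from C). -/
def ST1_Stmt : Prop := ∀ κ : ℝ, 0 < κ → ∃ C : ℝ, 0 < C ∧
  ∀ (n N : ℕ) (eps : ℝ) (z : ℂ) (v : ℤ → ℂ), 1 ≤ n → 4 * n ≤ N → 0 ≤ eps → ‖z‖ ≤ 1 / 4 →
    ‖(1 / 4 : ℂ) - z‖ ≤ κ / n → eps * ((n : ℝ) * Real.sqrt n) ≤ κ →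
    stair.Solves eps z N v (src1 z) →
    ∀ g : ℤ, 1 ≤ g → g ≤ N → ‖v g - 1‖ ^ 2 ≤ C * (g : ℝ) ^ 2 / Real.sqrt n

/-- MODULE EB : bulk residual of the staircase solution in the model `G` (pure computation). -/
def EB_Stmt : Prop := ∀ G : GapKernel, ∃ C : ℝ, 0 < C ∧
  ∀ (N : ℕ) (eps eps' : ℝ) (z z' : ℂ) (v : ℤ → ℂ), 0 ≤ eps → eps ≤ 1 → 0 ≤ eps' → eps' ≤ 1 →
    ‖z‖ ≤ G.rho → ‖z'‖ ≤ 1 / 4 → ‖(1 / 4 : ℂ) - z'‖ ≤ 1 / 8 →
    stair.Solves eps' z' N v (src1 z') →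
    Real.sqrt (∑ g ∈ Icc ((G.R : ℤ) + 1) N, ‖G.Lop eps z N v g‖ ^ 2)
      ≤ ‖2 * (G.sig2 : ℂ) * (1 - 4 * z') - (G.mbar : ℂ) * (1 - z / (G.rho : ℂ))‖
            * Real.sqrt (nsq N v)
        + 2 * |2 * G.sig2 * eps' - G.hbar * eps| * Real.sqrt (nsq N (mulg 1 v))
        + C * ((‖(G.rho : ℂ) - z‖ + ‖(1 / 4 : ℂ) - z'‖) * Real.sqrt (En N v)
            + (eps + eps') * (Real.sqrt (En N (mulg 1 v)) + Real.sqrt (nsq N v))
            + (‖(G.rho : ℂ) - z‖ + ‖(1 / 4 : ℂ) - z'‖) ^ 2 * Real.sqrt (nsq N v)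
            + (eps + eps') ^ 2 * Real.sqrt (nsq N (mulg 2 v)) + ‖v N‖)

end Pool.Agent.Gap
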