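import Mathlib
import Pool.Agent.Lib_helper79.Gap.Defs

/-!
Analysis half of MP_f6626d_co, second part: power series arrays, comparison, coefficient
extraction, area models and the final theorem.
-/

set_option autoImplicit false

open Finset Filter Topology

namespace Pool.Agent.Gap

/-! ### Caps and arrays -/

/-- bounded family of caps: `s m g` = weight of the caps of half length `m` and gap `g` -/
structure IsCap (C0 : ℕ) (s : ℕ → ℤ → ℝ) : Prop where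
  nonneg : ∀ m g, 0 ≤ s m g
  supp_m : ∀ m g, C0 < m → s m g = 0
  supp_g : ∀ m g, (g < 1 ∨ (C0 : ℤ) < g) → s m g = 0
  nontriv : ∃ m g, 0 < s m g

/-- source with `j` marks: `sum m^j s_m(g) z^m` -/
noncomputable def capz (C0 : ℕ) (s : ℕ → ℤ → ℝ) (j : ℕ) (z : ℂ) (g : ℤ) : ℂ :=
  ∑ m ∈ range (C0 + 1), ((m : ℂ)) ^ j * z ^ m * ((s m g : ℝ) : ℂ)

/-- the standard cap of staircase polygons -/
noncomputable def cap1 (m : ℕ) (g : ℤ) : ℝ := if m = 1 ∧ g = 1 then 1 else 0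

/-- `b` is the array of coefficients of the truncated model (gaps `1..N`, area parameter `eps`) -/
structure IsArr (G : GapKernel) (s : ℕ → ℤ → ℝ) (eps : ℝ) (N : ℕ) (b : ℕ → ℤ → ℝ) : Prop where
  zero : ∀ n (g : ℤ), (g < 1 ∨ (N : ℤ) < g) → b n g = 0
  step : ∀ n (g : ℤ), 1 ≤ g → g ≤ N → b n g = s n g + ∑ i ∈ G.S, if i.1 ≤ n then
    ∑ g' ∈ Icc (1 : ℤ) N, G.K i g g' * GapKernel.wt eps i g g' * b (n - i.1) g' else 0

/-- generating function of an array with `j` marks -/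
noncomputable def gf (j : ℕ) (b : ℕ → ℤ → ℝ) (z : ℂ) (g : ℤ) : ℂ :=
  ∑' n : ℕ, ((n : ℂ)) ^ j * ((b n g : ℝ) : ℂ) * z ^ n

/-- closing an array by caps -/
noncomputable def close (C0 : ℕ) (t : ℕ → ℤ → ℝ) (b : ℕ → ℤ → ℝ) (n : ℕ) : ℝ :=
  ∑ m ∈ range (n + 1), ∑ g ∈ Icc (1 : ℤ) C0, t m g * b (n - m) g

/-- generating function of a sequence with `j` marks -/
noncomputable def sgf (j : ℕ) (a : ℕ → ℝ) (z : ℂ) : ℂ :=
  ∑' n : ℕ, ((n : ℂ)) ^ j * ((a n : ℝ) : ℂ) * z ^ n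

/-- MODULE J1 : arrays, summability and the equations of the generating functions. -/
def J1_Stmt : Prop := ∀ (G : GapKernel) (C0 : ℕ) (s : ℕ → ℤ → ℝ), IsCap C0 s →
  ∀ (N : ℕ) (eps : ℝ), 0 ≤ eps →
  (∃ b, IsArr G s eps N b) ∧
  ∀ b, IsArr G s eps N b → (∀ n g, 0 ≤ b n g) ∧
    (∃ C : ℝ, ∀ n g, b n g * G.rho ^ n ≤ C) ∧
    (∀ (z : ℂ), ‖z‖ < G.rho → ∀ j g, Summable fun n : ℕ => ‖((n : ℂ)) ^ j * ((b n g : ℝ) : ℂ) * z ^ n‖) ∧
    (∀ (z : ℂ), ‖z‖ < G.rho → ∀ j : ℕ, G.Solves eps z N (gf j b z)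
      (fun g => capz C0 s j z g + ∑ l ∈ range j, ((j.choose l : ℕ) : ℂ) *
        G.Kap (j - l) eps z N (gf l b z) g))

/-- MODULE J2 : bounds of the closed generating functions (from C2, RE, SUP, W, J1). -/
def J2_Stmt : Prop := ∀ (G : GapKernel) (C0 : ℕ) (s t : ℕ → ℤ → ℝ), IsCap C0 s → IsCap C0 t →
  ∃ C : ℝ, 0 < C ∧ ∀ (N : ℕ) (eps : ℝ), 0 ≤ eps → C0 ≤ N →
    ∀ b b', IsArr G s eps N b → IsArr G t eps N b' → ∀ z : ℂ, ‖z‖ < G.rho →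
    (∀ j, Summable fun n : ℕ => ‖((n : ℂ)) ^ j * ((close C0 t b n : ℝ) : ℂ) * z ^ n‖) ∧
    ‖sgf 1 (close C0 t b) z - (G.mbar : ℂ) * ∑ g ∈ Icc (1 : ℤ) N, gf 0 b z g * gf 0 b' z g‖ ≤ C ∧
    ‖sgf 2 (close C0 t b) z‖ * (‖(G.rho : ℂ) - z‖ * Real.sqrt ‖(G.rho : ℂ) - z‖) ≤ C ∧
    ‖sgf 3 (close C0 t b) z‖ * (‖(G.rho : ℂ) - z‖ ^ 2 * Real.sqrt ‖(G.rho : ℂ) - z‖) ≤ C

/-! ### Comparison with the staircase model -/

/-- a pair of scales `n` (model) and `n0` (staircase) which match asymptotically, and a large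
truncation `N` -/
structure Scales (G : GapKernel) (n0 N : ℕ → ℕ) : Prop where
  lim : Tendsto (fun n : ℕ => (n0 n : ℝ) / n) atTop (𝓝 (2 * G.sig2 / G.mbar))
  big : ∀ n : ℕ, 4 * n ^ 2 + 4 * (n0 n) ^ 2 ≤ N n

/-- staircase area parameter corresponding to the parameter `lam` of the model -/
noncomputable def lam0 (G : GapKernel) (lam : ℝ) : ℝ :=
  G.hbar / (2 * G.sig2) * (2 * G.sig2 / G.mbar) ^ (3 / 2 : ℝ) * lam

/-- area parameter at scale `n` -/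
noncomputable def epsn (lam : ℝ) (n : ℕ) : ℝ := lam / ((n : ℝ) * Real.sqrt n)

/-- point of the disc at scale `n` -/
noncomputable def zn (rho : ℝ) (w : ℂ) (n : ℕ) : ℂ := (rho : ℂ) * Complex.exp (-(w / n))

/-- MODULE E : comparison of the solutions (from RE, W, VEX, VLIM, ST1, EB). -/
def E_Stmt : Prop := ∀ (G : GapKernel) (C0 : ℕ) (s : ℕ → ℤ → ℝ), IsCap C0 s →
  ∃ A : ℝ, 0 < A ∧ ∀ (n0 N : ℕ → ℕ), Scales G n0 N →
    ∀ (lam : ℝ) (w : ℂ), 0 ≤ lam → 0 < w.re →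
    ∀ (v v0 : ℕ → ℤ → ℂ),
      (∀ n, 1 ≤ n → 1 ≤ n0 n →
        G.Solves (epsn lam n) (zn G.rho w n) (N n) (v n) (capz C0 s 0 (zn G.rho w n)) ∧
        stair.Solves (epsn (lam0 G lam) (n0 n)) (zn (1 / 4) w (n0 n)) (N n) (v0 n)
          (src1 (zn (1 / 4) w (n0 n)))) →
      Tendsto (fun n : ℕ => nsq (N n) (fun g => v n g - (A : ℂ) * v0 n g) / Real.sqrt n)
        atTop (𝓝 0)

/-- MODULE X : coefficient extraction on the circle and dominated convergence (pure analysis). -/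
def X_Stmt : Prop := ∀ (rho rho' β c C : ℝ) (n0 : ℕ → ℕ) (a a' : ℕ → ℕ → ℝ),
  0 < rho → 0 < rho' → 0 < β → Tendsto (fun n : ℕ => (n0 n : ℝ) / n) atTop (𝓝 β) →
  (∀ (n : ℕ) (z : ℂ), ‖z‖ < rho →
    (∀ j, Summable fun m : ℕ => ‖((m : ℂ)) ^ j * ((a n m : ℝ) : ℂ) * z ^ m‖) ∧
    ‖sgf 2 (a n) z‖ * (‖(rho : ℂ) - z‖ * Real.sqrt ‖(rho : ℂ) - z‖) ≤ C ∧
    ‖sgf 3 (a n) z‖ * (‖(rho : ℂ) - z‖ ^ 2 * Real.sqrt ‖(rho : ℂ) - z‖) ≤ C) →
  (∀ (n : ℕ) (z : ℂ), ‖z‖ < rho' →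
    (∀ j, Summable fun m : ℕ => ‖((m : ℂ)) ^ j * ((a' n m : ℝ) : ℂ) * z ^ m‖) ∧
    ‖sgf 2 (a' n) z‖ * (‖(rho' : ℂ) - z‖ * Real.sqrt ‖(rho' : ℂ) - z‖) ≤ C ∧
    ‖sgf 3 (a' n) z‖ * (‖(rho' : ℂ) - z‖ ^ 2 * Real.sqrt ‖(rho' : ℂ) - z‖) ≤ C) →
  (∀ w : ℂ, 0 < w.re → Tendsto (fun n : ℕ =>
      (sgf 1 (a n) (zn rho w n) - (c : ℂ) * sgf 1 (a' n) (zn rho' w (n0 n)))
        / ((Real.sqrt n : ℝ) : ℂ)) atTop (𝓝 0)) →
  Tendsto (fun n : ℕ => ((n : ℝ) * Real.sqrt n) * rho ^ n * a n n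
    - c * Real.sqrt β * (((n0 n : ℝ) * Real.sqrt (n0 n)) * rho' ^ (n0 n) * a' n (n0 n)))
    atTop (𝓝 0)

/-! ### Polynomials in the area variable and second moments -/

/-- exact solution (all gaps) with polynomial weights in the area variable -/
structure IsSol (G : GapKernel) (s : ℕ → ℤ → ℝ) (B : ℕ → ℤ → Polynomial ℝ) : Prop where
  zero : ∀ n (g : ℤ), g < 1 → B n g = 0
  step : ∀ n (g : ℤ), 1 ≤ g → B n g = Polynomial.C (s n g) + ∑ i ∈ G.S, if i.1 ≤ n then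
    ∑ g' ∈ Icc (g - G.R) (g + G.R),
      Polynomial.C (G.K i g g') * Polynomial.X ^ ((i.2 : ℤ) * (g + g')).toNat * B (n - i.1) g'
    else 0

/-- closing a polynomial array by caps -/
noncomputable def closeP (C0 : ℕ) (t : ℕ → ℤ → ℝ) (B : ℕ → ℤ → Polynomial ℝ) (n : ℕ) :
    Polynomial ℝ :=
  ∑ m ∈ range (n + 1), ∑ g ∈ Icc (1 : ℤ) C0, Polynomial.C (t m g) * B (n - m) g

/-- MODULE B1 : evaluating the exact solution gives the truncated arrays (for `n` small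
compared to `N`). -/
def B1_Stmt : Prop := ∀ (G : GapKernel) (C0 : ℕ) (s : ℕ → ℤ → ℝ), IsCap C0 s →
  ∀ B, IsSol G s B → ∀ (N : ℕ) (eps : ℝ) (b : ℕ → ℤ → ℝ), 0 ≤ eps → IsArr G s eps N b →
    ∀ n : ℕ, C0 + (G.R + 1) * (n + 1) ≤ N → ∀ g : ℤ, b n g = (B n g).eval (Real.exp (-eps))

/-- MODULE M2 : second moment bound.  `(X d/dX)^2` at `X = 1` is the second moment of the area. -/
def M2_Stmt : Prop := ∀ (G : GapKernel) (C0 : ℕ) (s t : ℕ → ℤ → ℝ), IsCap C0 s → IsCap C0 t →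
  ∀ B, IsSol G s B → ∃ C : ℝ, ∀ n : ℕ,
    G.rho ^ n * ((closeP C0 t B n).derivative.derivative.eval 1
      + (closeP C0 t B n).derivative.eval 1) ≤ C * ((n : ℝ) * Real.sqrt n)

/-- MODULE BAL : lower bounds for the staircase model (explicit ballot numbers). -/
def BAL_Stmt : Prop := ∀ B, IsSol stair cap1 B → ∃ c : ℝ, 0 < c ∧ ∀ n : ℕ, 3 ≤ n →
    c ≤ ((n : ℝ) * Real.sqrt n) * (1 / 4 : ℝ) ^ n * (closeP 1 cap1 B n).eval 1 ∧
    c * ((n : ℝ) * Real.sqrt n) * (closeP 1 cap1 B n).eval 1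
      ≤ (closeP 1 cap1 B n).derivative.eval 1

/-! ### Area models and the final theorem -/

/-- What the combinatorics delivers: finite sets `Omega n` with a functional `T` (twice the
area) close to an integer functional `A` whose generating polynomial is given by a gap kernel. -/
structure AreaModel where
  G : GapKernel
  C0 : ℕ
  s : ℕ → ℤ → ℝ
  t : ℕ → ℤ → ℝ
  cap_s : IsCap C0 s
  cap_t : IsCap C0 t
  B : ℕ → ℤ → Polynomial ℝ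
  sol : IsSol G s B
  Omega : ℕ → Type
  fin : ∀ n, Fintype (Omega n)
  A : ∀ n, Omega n → ℕ
  T : ∀ n, Omega n → ℝ
  T_nonneg : ∀ n x, 0 ≤ T n x
  C1 : ℝ
  n1 : ℕ
  near : ∀ n, n1 ≤ n → ∀ x : Omega n, |T n x - A n x| ≤ C1 * n
  c : ℕ → ℝ
  c_pos : ∀ n, 0 < c n
  count : ∀ n, n1 ≤ n → (∑ x : Omega n, (Polynomial.X : Polynomial ℝ) ^ (A n x))
    = Polynomial.C (c n) * closeP C0 t B n

attribute [instance] AreaModel.fin

/-- distribution function of `T / E[T]` -/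
noncomputable def AreaModel.cdf (M : AreaModel) (n : ℕ) (x : ℝ) : ℝ :=
  open Classical in
  ((univ.filter fun y : M.Omega n =>
      M.T n y * (Fintype.card (M.Omega n) : ℝ) ≤ x * ∑ y' : M.Omega n, M.T n y').card : ℝ)
    / (Fintype.card (M.Omega n) : ℝ)

/-- `T / E[T]` converges in distribution to `ν` -/
def AreaModel.Conv (M : AreaModel) (ν : MeasureTheory.Measure ℝ) : Prop :=
  ∀ x : ℝ, ν {x} = 0 → Tendsto (fun n : ℕ => M.cdf n x) atTop (𝓝 (ν (Set.Iic x)).toReal)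

/-- MODULE LT : Laplace comparison (from E, J, X, B1, BAL). -/
def LT_Stmt : Prop := ∀ (G : GapKernel) (C0 : ℕ) (s t : ℕ → ℤ → ℝ), IsCap C0 s → IsCap C0 t →
  ∀ B, IsSol G s B → ∀ B0, IsSol stair cap1 B0 →
  ∃ cr : ℝ, 0 < cr ∧ ∀ (n0 : ℕ → ℕ),
    Tendsto (fun n : ℕ => (n0 n : ℝ) / n) atTop (𝓝 (2 * G.sig2 / G.mbar)) →
    ∀ lam : ℝ, 0 ≤ lam →
      Tendsto (fun n : ℕ => ((n : ℝ) * Real.sqrt n) * G.rho ^ n
          * (closeP C0 t B n).eval (Real.exp (-(epsn lam n)))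
        - cr * (((n0 n : ℝ) * Real.sqrt (n0 n)) * (1 / 4 : ℝ) ^ (n0 n)
          * (closeP 1 cap1 B0 (n0 n)).eval (Real.exp (-(epsn (lam0 G lam) (n0 n))))))
        atTop (𝓝 0)

/-- MODULE PROB : from Laplace transforms and second moments to laws (from LT, M2, BAL). -/
def PROB_Stmt : Prop := LT_Stmt → M2_Stmt → BAL_Stmt →
  ∀ M M0 : AreaModel, M0.G = stair → M0.C0 = 1 → M0.s = cap1 → M0.t = cap1 →
    ∀ ν : MeasureTheory.Measure ℝ, MeasureTheory.IsProbabilityMeasure ν →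
      M0.Conv ν → M.Conv ν

end Pool.Agent.Gap
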