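import Mathlib
import Pool.Agent.Lib_helper79.Gap.Defs2

/-!
Analysis half of MP_f6626d_co, third part: existence of the limit law.
-/

set_option autoImplicit false

open Finset Filter Topology

namespace Pool.Agent.Gap

/-- MODULE X1 : one system, existence of the limit of the diagonal coefficients
(same proof as X). -/
def X1_Stmt : Prop := ∀ (rho C : ℝ) (a : ℕ → ℕ → ℝ), 0 < rho →
  (∀ (n : ℕ) (z : ℂ), ‖z‖ < rho →
    (∀ j, Summable fun m : ℕ => ‖((m : ℂ)) ^ j * ((a n m : ℝ) : ℂ) * z ^ m‖) ∧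
    ‖sgf 2 (a n) z‖ * (‖(rho : ℂ) - z‖ * Real.sqrt ‖(rho : ℂ) - z‖) ≤ C ∧
    ‖sgf 3 (a n) z‖ * (‖(rho : ℂ) - z‖ ^ 2 * Real.sqrt ‖(rho : ℂ) - z‖) ≤ C) →
  (∀ w : ℂ, 0 < w.re → ∃ l : ℂ, Tendsto (fun n : ℕ =>
      sgf 1 (a n) (zn rho w n) / ((Real.sqrt n : ℝ) : ℂ)) atTop (𝓝 l)) →
  ∃ L : ℝ, Tendsto (fun n : ℕ => ((n : ℝ) * Real.sqrt n) * rho ^ n * a n n) atTop (𝓝 L)

/-- MODULE LIM : scaling limit of the staircase solution (Cauchy in `n`, by the energy method for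
piecewise linear interpolations on the half line). -/
def LIM_Stmt : Prop := ∀ (lam : ℝ) (w : ℂ), 0 ≤ lam → 0 < w.re → ∀ (N : ℕ → ℕ),
  (∀ n, 4 * n ^ 2 ≤ N n) → ∀ (v : ℕ → ℤ → ℂ),
    (∀ n, 1 ≤ n → stair.Solves (epsn lam n) (zn (1 / 4) w n) (N n) (v n) (src1 (zn (1 / 4) w n))) →
    ∃ l : ℂ, Tendsto (fun n : ℕ => (∑ g ∈ Icc (1 : ℤ) (N n), (v n g) ^ 2)
      / ((Real.sqrt n : ℝ) : ℂ)) atTop (𝓝 l)

/-- MODULE LT1 : the Laplace transforms of the staircase model converge (from LIM, X1, J1, J2, B1). -/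
def LT1_Stmt : Prop := ∀ B0, IsSol stair cap1 B0 → ∀ lam : ℝ, 0 ≤ lam →
  ∃ L : ℝ, Tendsto (fun n : ℕ => ((n : ℝ) * Real.sqrt n) * (1 / 4 : ℝ) ^ n
    * (closeP 1 cap1 B0 n).eval (Real.exp (-(epsn lam n)))) atTop (𝓝 L)

/-- MODULE FINAL : one universal law (from LT, LT1, M2, BAL). -/
def FINAL_Stmt : Prop := ∃ μ : MeasureTheory.Measure ℝ, MeasureTheory.IsProbabilityMeasure μ ∧
  ∀ M : AreaModel, M.Conv μ

end Pool.Agent.Gap
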