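import Mathlib
import Pool.Agent.Lib_helper79.Gap.Defs3

/-! Elementary facts on gap kernels. -/

set_option autoImplicit false

open Finset Filter Topology

namespace Pool.Agent.Gap

namespace GapKernel

variable (G : GapKernel)

lemma R_pos : 1 ≤ G.R := by
  by_contra h
  have h0 : G.R = 0 := by omega
  have h1 := G.T_range (1, 1) 1 (by rw [h0]; simp)
  have h2 := G.T_one.2.1
  rw [h1] at h2
  norm_num at h2

lemma tot_nonneg (i : ℕ × ℕ) : 0 ≤ G.tot i :=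
  Finset.sum_nonneg fun d _ => G.T_nonneg i d

lemma crit' : ∑ i ∈ G.S, G.rho ^ i.1 * G.tot i = 1 := G.crit

lemma K_out' (i : ℕ × ℕ) (g g' : ℤ) (h : g' ≤ 0) : G.K i g g' = 0 := by
  rw [G.K_symm]; exact G.K_out i g' g h

lemma K_range (i : ℕ × ℕ) (g g' : ℤ) (h : (G.R : ℤ) < |g' - g|) : G.K i g g' = 0 :=
  le_antisymm ((G.K_le i g g').trans_eq (G.T_range i _ h)) (G.K_nonneg i g g')

lemma K_eq' (i : ℕ × ℕ) (g g' : ℤ) (h1 : 1 ≤ g) (h2 : 1 ≤ g') (h : (G.R : ℤ) < g') :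
    G.K i g g' = G.T i (g' - g) := by
  rw [G.K_symm, G.K_eq i g' g h2 h1 h, ← G.T_even]
  congr 1
  ring

lemma T_le_tot (i : ℕ × ℕ) (d : ℤ) : G.T i d ≤ G.tot i := by
  by_cases h : |d| ≤ (G.R : ℤ)
  · refine Finset.single_le_sum (f := fun d => G.T i d) (fun d _ => G.T_nonneg i d) ?_
    rw [Finset.mem_Icc]
    exact abs_le.mp h
  · rw [G.T_range i d (not_le.mp h)]
    exact G.tot_nonneg i

lemma sum_T_shift (i : ℕ × ℕ) (g : ℤ) (s : Finset ℤ) : ∑ g' ∈ s, G.T i (g' - g) ≤ G.tot i := by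
  have h1 : ∑ g' ∈ s, G.T i (g' - g) = ∑ g' ∈ s.filter (fun g' => |g' - g| ≤ (G.R : ℤ)), G.T i (g' - g) := by
    rw [Finset.sum_filter]
    refine Finset.sum_congr rfl fun g' _ => ?_
    split_ifs with h
    · rfl
    · exact G.T_range i _ (not_le.mp h)
  rw [h1]
  have h2 : ∑ g' ∈ s.filter (fun g' => |g' - g| ≤ (G.R : ℤ)), G.T i (g' - g)
      = ∑ d ∈ (s.filter (fun g' => |g' - g| ≤ (G.R : ℤ))).image (fun g' => g' - g), G.T i d := by
    rw [Finset.sum_image]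
    intro a _ b _ h
    simpa using h
  rw [h2]
  refine Finset.sum_le_sum_of_subset_of_nonneg ?_ (fun d _ _ => G.T_nonneg i d)
  intro d hd
  simp only [Finset.mem_image, Finset.mem_filter] at hd
  obtain ⟨g', ⟨_, h⟩, rfl⟩ := hd
  rw [Finset.mem_Icc]
  exact abs_le.mp h

lemma sum_K_le (i : ℕ × ℕ) (g : ℤ) (s : Finset ℤ) : ∑ g' ∈ s, G.K i g g' ≤ G.tot i :=
  (Finset.sum_le_sum fun g' _ => G.K_le i g g').trans (G.sum_T_shift i g s)

lemma sum_K_le' (i : ℕ × ℕ) (g' : ℤ) (s : Finset ℤ) : ∑ g ∈ s, G.K i g g' ≤ G.tot i := by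
  calc ∑ g ∈ s, G.K i g g' = ∑ g ∈ s, G.K i g' g := Finset.sum_congr rfl fun g _ => G.K_symm i g g'
    _ ≤ G.tot i := G.sum_K_le i g' s

lemma tot_one : G.tot (1, 1) = 4 := by
  have hR := G.R_pos
  have hsub : ({-1, 0, 1} : Finset ℤ) ⊆ Icc (-(G.R : ℤ)) G.R := by
    intro d hd
    simp only [Finset.mem_insert, Finset.mem_singleton] at hd
    rw [Finset.mem_Icc]
    omega
  have h : ∑ d ∈ ({-1, 0, 1} : Finset ℤ), G.T (1, 1) d = G.tot (1, 1) := by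
    refine Finset.sum_subset hsub fun d _ hd => ?_
    simp only [Finset.mem_insert, Finset.mem_singleton, not_or] at hd
    exact G.T_one.2.2 d (le_abs.mpr (by omega))
  rw [← h]
  have h1 : G.T (1, 1) (-1) = 1 := by rw [G.T_even]; exact G.T_one.2.1
  simp [h1, G.T_one.1, G.T_one.2.1]
  norm_num

lemma mbar_pos : 0 < G.mbar := by
  have h : ((1 : ℕ) : ℝ) * G.rho ^ 1 * G.tot (1, 1) ≤ G.mbar := by
    refine Finset.single_le_sum (f := fun i : ℕ × ℕ => (i.1 : ℝ) * G.rho ^ i.1 * G.tot i) ?_ G.i0_mem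
    intro i _
    have := G.rho_pos
    have := G.tot_nonneg i
    positivity
  rw [G.tot_one] at h
  have := G.rho_pos
  norm_num at h
  linarith

lemma hbar_pos : 0 < G.hbar := by
  have h : ((1 : ℕ) : ℝ) * G.rho ^ 1 * G.tot (1, 1) ≤ G.hbar := by
    refine Finset.single_le_sum (f := fun i : ℕ × ℕ => (i.2 : ℝ) * G.rho ^ i.1 * G.tot i) ?_ G.i0_mem
    intro i _
    have := G.rho_pos
    have := G.tot_nonneg i
    positivity
  rw [G.tot_one] at h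
  have := G.rho_pos
  norm_num at h
  linarith

lemma sig2_pos : 0 < G.sig2 := by
  have hR := G.R_pos
  have h : G.rho ^ 1 * ∑ d ∈ Icc (-(G.R : ℤ)) G.R, (d : ℝ) ^ 2 * G.T (1, 1) d ≤ G.sig2 := by
    refine Finset.single_le_sum (f := fun i : ℕ × ℕ => G.rho ^ i.1 *
      ∑ d ∈ Icc (-(G.R : ℤ)) G.R, (d : ℝ) ^ 2 * G.T i d) ?_ G.i0_mem
    intro i _
    have := G.rho_pos
    have h2 : 0 ≤ ∑ d ∈ Icc (-(G.R : ℤ)) G.R, (d : ℝ) ^ 2 * G.T i d :=
      Finset.sum_nonneg fun d _ => mul_nonneg (sq_nonneg _) (G.T_nonneg i d)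
    positivity
  have h1 : (1 : ℝ) ≤ ∑ d ∈ Icc (-(G.R : ℤ)) G.R, (d : ℝ) ^ 2 * G.T (1, 1) d := by
    have h3 : ((1 : ℤ) : ℝ) ^ 2 * G.T (1, 1) 1 ≤ ∑ d ∈ Icc (-(G.R : ℤ)) G.R, (d : ℝ) ^ 2 * G.T (1, 1) d := by
      refine Finset.single_le_sum (f := fun d : ℤ => (d : ℝ) ^ 2 * G.T (1, 1) d)
        (fun d _ => mul_nonneg (sq_nonneg _) (G.T_nonneg _ d)) ?_
      rw [Finset.mem_Icc]
      omega
    rw [G.T_one.2.1] at h3
    norm_num at h3
    exact h3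
  have := G.rho_pos
  nlinarith

lemma beta_pos : 0 < 2 * G.sig2 / G.mbar := by
  have := G.sig2_pos
  have := G.mbar_pos
  positivity

end GapKernel

end Pool.Agent.Gap
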