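import Mathlib
import Pool.Agent.Lib_helper79.Gap.Basic

/-! Asymptotics of the points `zn` and of the scales. -/

set_option autoImplicit false

open Finset Filter Topology

namespace Pool.Agent.Gap

lemma zn_norm (rho : ℝ) (hr : 0 < rho) (w : ℂ) (n : ℕ) :
    ‖zn rho w n‖ = rho * Real.exp (-(w.re / n)) := by
  unfold zn
  rw [norm_mul, Complex.norm_exp, Complex.norm_real, Real.norm_of_nonneg hr.le]
  congr 2
  rw [Complex.neg_re, Complex.div_natCast_re]

lemma zn_norm_le (rho : ℝ) (hr : 0 < rho) (w : ℂ) (hw : 0 < w.re) (n : ℕ) :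
    ‖zn rho w n‖ ≤ rho := by
  rw [zn_norm rho hr]
  have : Real.exp (-(w.re / n)) ≤ 1 := by
    rw [Real.exp_le_one_iff]
    have : 0 ≤ w.re / n := by positivity
    linarith
  nlinarith

lemma zn_norm_lt (rho : ℝ) (hr : 0 < rho) (w : ℂ) (hw : 0 < w.re) (n : ℕ) (hn : 1 ≤ n) :
    ‖zn rho w n‖ < rho := by
  rw [zn_norm rho hr]
  have hn' : (0 : ℝ) < n := by exact_mod_cast hn
  have : Real.exp (-(w.re / n)) < 1 := by
    rw [Real.exp_lt_one_iff]
    have : 0 < w.re / n := by positivity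
    linarith
  nlinarith

lemma zn_ne (rho : ℝ) (hr : 0 < rho) (w : ℂ) (hw : 0 < w.re) (n : ℕ) (hn : 1 ≤ n) :
    zn rho w n ≠ (rho : ℂ) := by
  intro h
  have h1 := zn_norm_lt rho hr w hw n hn
  rw [h, Complex.norm_real, Real.norm_of_nonneg hr.le] at h1
  exact lt_irrefl _ h1

/-- `n (rho - z_n) → rho w` -/
lemma tendsto_zn (rho : ℝ) (w : ℂ) (m : ℕ → ℕ) (hm : Tendsto m atTop atTop) :
    Tendsto (fun n : ℕ => ((m n : ℕ) : ℂ) * ((rho : ℂ) - zn rho w (m n))) atTop (𝓝 ((rho : ℂ) * w)) := by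
  have hd : HasDerivAt (fun t : ℂ => Complex.exp (-(t * w))) (-w) 0 := by
    have h := ((hasDerivAt_id (0 : ℂ)).mul_const w).neg.cexp
    simpa using h
  have ht : Tendsto (fun k : ℕ => ((k : ℂ))⁻¹) atTop (𝓝[≠] 0) := by
    rw [tendsto_nhdsWithin_iff]
    refine ⟨?_, ?_⟩
    · exact tendsto_inv_atTop_nhds_zero_nat
    · filter_upwards [eventually_gt_atTop 0] with k hk
      simp
      omega
  have h1 := (hasDerivAt_iff_tendsto_slope.mp hd).comp ht
  have h2 : Tendsto (fun k : ℕ => ((k : ℕ) : ℂ) * ((rho : ℂ) - zn rho w k)) atTop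
      (𝓝 ((rho : ℂ) * w)) := by
    have h3 := (h1.const_mul (-(rho : ℂ)))
    have h4 : -(rho : ℂ) * -w = rho * w := by ring
    rw [h4] at h3
    refine h3.congr' ?_
    filter_upwards [eventually_gt_atTop 0] with k hk
    have hk' : (k : ℂ) ≠ 0 := by exact_mod_cast hk.ne'
    simp only [Function.comp, slope_def_field, sub_zero, zero_mul, neg_zero, Complex.exp_zero]
    unfold zn
    rw [div_inv_eq_mul, show (k : ℂ)⁻¹ * w = w / k by field_simp]
    ring
  exact h2.comp hm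

lemma tendsto_zn_norm (rho : ℝ) (hr : 0 < rho) (w : ℂ) (m : ℕ → ℕ) (hm : Tendsto m atTop atTop) :
    Tendsto (fun n : ℕ => ((m n : ℕ) : ℝ) * ‖(rho : ℂ) - zn rho w (m n)‖) atTop
      (𝓝 (rho * ‖w‖)) := by
  have h := (tendsto_zn rho w m hm).norm
  have h1 : ‖(rho : ℂ) * w‖ = rho * ‖w‖ := by
    rw [norm_mul, Complex.norm_real, Real.norm_of_nonneg hr.le]
  rw [h1] at h
  refine h.congr fun n => ?_
  rw [norm_mul]
  simp

lemma Scales.n0_atTop {G : GapKernel} {n0 N : ℕ → ℕ} (h : Scales G n0 N) :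
    Tendsto n0 atTop atTop := by
  have h1 := h.lim
  have hb := G.beta_pos
  have h2 : Tendsto (fun n : ℕ => ((n0 n : ℝ) / n) * n) atTop atTop :=
    h1.pos_mul_atTop hb tendsto_natCast_atTop_atTop
  have h3 : Tendsto (fun n : ℕ => (n0 n : ℝ)) atTop atTop := by
    refine h2.congr' ?_
    filter_upwards [eventually_gt_atTop 0] with n hn
    have : (n : ℝ) ≠ 0 := by exact_mod_cast hn.ne'
    field_simp
  exact tendsto_natCast_atTop_iff.mp h3

end Pool.Agent.Gap
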