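import Mathlib
import Pool.Agent.Lib_helper79.Gap.EA

/-! Module E: the truncated critical solution. -/

set_option autoImplicit false

open Finset Filter Topology

namespace Pool.Agent.Gap

/-- the truncated function `Y = v_c - A` on `1..N` -/
noncomputable def Yf (N : ℕ) (v : ℤ → ℝ) (A : ℝ) (g : ℤ) : ℂ :=
  if 1 ≤ g ∧ g ≤ (N : ℤ) then ((v g - A : ℝ) : ℂ) else 0

lemma nsq_Yf (N : ℕ) (v : ℤ → ℝ) (A C : ℝ)
    (h : ∑ g ∈ Icc (1 : ℤ) N, (g : ℝ) ^ 2 * (v g - A) ^ 2 ≤ C) : nsq N (Yf N v A) ≤ C := by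
  refine le_trans (Finset.sum_le_sum fun g hg => ?_) h
  rw [Finset.mem_Icc] at hg
  have h1 : (1 : ℝ) ≤ g := by exact_mod_cast hg.1
  unfold Yf
  rw [if_pos hg, Complex.norm_real, Real.norm_eq_abs, sq_abs]
  nlinarith [mul_nonneg (by nlinarith : (0 : ℝ) ≤ (g : ℝ) ^ 2 - 1) (sq_nonneg (v g - A))]

lemma Lop_Yf (G : GapKernel) (N : ℕ) (s v : ℤ → ℝ) (A : ℝ)
    (hv : ∀ g : ℤ, 1 ≤ g → v g = s g + ∑ g' ∈ Icc (g - G.R) (g + G.R), G.Kc g g' * v g')
    (g : ℤ) (hg : g ∈ Icc (1 : ℤ) N) :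
    G.Lop 0 (G.rho : ℂ) N (Yf N v A) g = ((s g - A * G.kap g
      + ∑ g' ∈ (Icc (g - G.R) (g + G.R)).filter (fun g' => (N : ℤ) < g'), G.Kc g g' * (v g' - A) : ℝ) : ℂ) := by
  have hg1 := (Finset.mem_Icc.mp hg)
  have h1 : G.Kap 0 0 (G.rho : ℂ) N (Yf N v A) g
      = ((∑ g' ∈ (Icc (g - G.R) (g + G.R)).filter (fun g' => ¬ (N : ℤ) < g'), G.Kc g g' * (v g' - A) : ℝ) : ℂ) := by
    unfold GapKernel.Kap
    have e1 : ∑ g' ∈ Icc (1 : ℤ) N, G.Kz 0 0 (G.rho : ℂ) g g' * Yf N v A g'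
        = ((∑ g' ∈ Icc (1 : ℤ) N, G.Kc g g' * (v g' - A) : ℝ) : ℂ) := by
      push_cast
      refine Finset.sum_congr rfl fun g' hg' => ?_
      rw [G.Kz_crit]
      unfold Yf
      rw [if_pos (Finset.mem_Icc.mp hg')]
      push_cast
      ring
    rw [e1]
    congr 1
    -- both sides equal the sum over the intersection
    have e2 : ∑ g' ∈ Icc (1 : ℤ) N, G.Kc g g' * (v g' - A)
        = ∑ g' ∈ (Icc (1 : ℤ) N).filter (fun g' => |g' - g| ≤ (G.R : ℤ)), G.Kc g g' * (v g' - A) := by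
      rw [Finset.sum_filter]
      refine Finset.sum_congr rfl fun g' _ => ?_
      split_ifs with h
      · rfl
      · rw [G.Kc_range g g' (not_le.mp h), zero_mul]
    have e3 : ∑ g' ∈ (Icc (g - G.R) (g + G.R)).filter (fun g' => ¬ (N : ℤ) < g'), G.Kc g g' * (v g' - A)
        = ∑ g' ∈ ((Icc (g - G.R) (g + G.R)).filter (fun g' => ¬ (N : ℤ) < g')).filter (fun g' => 1 ≤ g'),
            G.Kc g g' * (v g' - A) := by
      rw [Finset.sum_filter (p := fun g' : ℤ => 1 ≤ g')]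
      refine Finset.sum_congr rfl fun g' _ => ?_
      split_ifs with h
      · rfl
      · rw [G.Kc_out g g' (by omega), zero_mul]
    rw [e2, e3]
    refine Finset.sum_congr ?_ fun _ _ => rfl
    ext x
    simp only [Finset.mem_filter, Finset.mem_Icc, abs_le]
    omega
  unfold GapKernel.Lop
  rw [h1]
  have h2 := Finset.sum_filter_add_sum_filter_not (Icc (g - G.R) (g + G.R)) (fun g' : ℤ => (N : ℤ) < g')
    (fun g' => G.Kc g g' * (v g' - A))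
  have h3 : ∑ g' ∈ Icc (g - G.R) (g + G.R), G.Kc g g' * (v g' - A)
      = (v g - s g) - A * (1 - G.kap g) := by
    have h4 := hv g hg1.1
    unfold GapKernel.kap
    simp only [mul_sub, Finset.sum_sub_distrib]
    rw [← Finset.sum_mul]
    linarith
  have h5 : Yf N v A g = ((v g - A : ℝ) : ℂ) := by
    unfold Yf
    rw [if_pos hg1]
  rw [h5, ← Complex.ofReal_sub]
  congr 1
  linarith

/-- linearity -/
lemma Kap_sub (G : GapKernel) (j : ℕ) (eps : ℝ) (z : ℂ) (N : ℕ) (f h : ℤ → ℂ) (g : ℤ) :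
    G.Kap j eps z N (fun x => f x - h x) g = G.Kap j eps z N f g - G.Kap j eps z N h g := by
  unfold GapKernel.Kap
  rw [← Finset.sum_sub_distrib]
  exact Finset.sum_congr rfl fun _ _ => by ring

lemma Kap_smul (G : GapKernel) (j : ℕ) (eps : ℝ) (z : ℂ) (N : ℕ) (c : ℂ) (f : ℤ → ℂ) (g : ℤ) :
    G.Kap j eps z N (fun x => c * f x) g = c * G.Kap j eps z N f g := by
  unfold GapKernel.Kap
  rw [Finset.mul_sum]
  exact Finset.sum_congr rfl fun _ _ => by ring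

/-- the error `(K_c - K_z) Y` -/
noncomputable def Df (G : GapKernel) (eps : ℝ) (z : ℂ) (N : ℕ) (Y : ℤ → ℂ) (g : ℤ) : ℂ :=
  ∑ g' ∈ Icc (1 : ℤ) N, (G.Kz 0 0 (G.rho : ℂ) g g' - G.Kz 0 eps z g g') * Y g'

lemma Lop_eq_crit (G : GapKernel) (eps : ℝ) (z : ℂ) (N : ℕ) (Y : ℤ → ℂ) (g : ℤ) :
    G.Lop eps z N Y g = G.Lop 0 (G.rho : ℂ) N Y g + Df G eps z N Y g := by
  unfold GapKernel.Lop GapKernel.Kap Df
  simp only [sub_mul, Finset.sum_sub_distrib]
  ring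

lemma nsq_Df (G : GapKernel) : ∃ C : ℝ, 0 < C ∧ ∀ (eps : ℝ) (z : ℂ) (N : ℕ) (v : ℤ → ℝ) (A Cv : ℝ),
    0 ≤ eps → ‖z‖ ≤ G.rho →
    ∑ g ∈ Icc (1 : ℤ) N, (g : ℝ) ^ 2 * (v g - A) ^ 2 ≤ Cv →
    nsq N (Df G eps z N (Yf N v A)) ≤ C * (‖(G.rho : ℂ) - z‖ + eps) ^ 2 * Cv := by
  obtain ⟨C, hC, hK⟩ := G.exists_Kz_sub
  refine ⟨C ^ 2 * (2 * G.R + 1) ^ 2, by positivity, ?_⟩
  intro eps z N v A Cv he hz hCv
  set D := ‖(G.rho : ℂ) - z‖ + eps with hD
  have hD0 : 0 ≤ D := by positivity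
  set u : ℤ → ℝ := fun g => |(g : ℝ) * (v g - A)| with hu
  have hpt : ∀ g ∈ Icc (1 : ℤ) N, ‖Df G eps z N (Yf N v A) g‖ ≤
      C * D * ∑ g' ∈ (Icc (1 : ℤ) N).filter (fun g' => |g' - g| ≤ (G.R : ℤ)), u g' := by
    intro g hg
    rw [Finset.mem_Icc] at hg
    unfold Df
    refine (norm_sum_le _ _).trans ?_
    rw [Finset.mul_sum, Finset.sum_filter]
    refine Finset.sum_le_sum fun g' hg' => ?_
    rw [Finset.mem_Icc] at hg'
    split_ifs with h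
    · rw [norm_mul]
      have h1 := hK eps z g g' he hz hg.1 hg'.1
      have h2 : ‖Yf N v A g'‖ = |v g' - A| := by
        unfold Yf
        rw [if_pos hg', Complex.norm_real, Real.norm_eq_abs]
      have h3 : (0 : ℝ) ≤ g' := by
        have : (1 : ℝ) ≤ g' := by exact_mod_cast hg'.1
        linarith
      rw [h2]
      simp only [hu, abs_mul, abs_of_nonneg h3]
      calc _ ≤ (C * D * g') * |v g' - A| := by gcongr
        _ = _ := by ring
    · rw [G.Kz_range 0 0 _ g g' (not_le.mp h), G.Kz_range 0 eps z g g' (not_le.mp h)]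
      simp
  unfold nsq
  calc ∑ g ∈ Icc (1 : ℤ) N, ‖Df G eps z N (Yf N v A) g‖ ^ 2
      ≤ ∑ g ∈ Icc (1 : ℤ) N, (C * D * ∑ g' ∈ (Icc (1 : ℤ) N).filter (fun g' => |g' - g| ≤ (G.R : ℤ)), u g') ^ 2 := by
        refine Finset.sum_le_sum fun g hg => ?_
        have := hpt g hg
        gcongr
    _ = (C * D) ^ 2 * ∑ g ∈ Icc (1 : ℤ) N, (∑ g' ∈ (Icc (1 : ℤ) N).filter (fun g' => |g' - g| ≤ (G.R : ℤ)), u g') ^ 2 := by
        rw [Finset.mul_sum]
        exact Finset.sum_congr rfl fun _ _ => by ring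
    _ ≤ (C * D) ^ 2 * ((2 * G.R + 1) ^ 2 * ∑ g ∈ Icc (1 : ℤ) N, u g ^ 2) := by
        gcongr
        exact conv_bound N G.R u
    _ ≤ (C * D) ^ 2 * ((2 * G.R + 1) ^ 2 * Cv) := by
        gcongr
        refine le_trans (le_of_eq ?_) hCv
        refine Finset.sum_congr rfl fun g _ => ?_
        simp only [hu, sq_abs]
        ring
    _ = _ := by ring

/-- the edge term is small -/
lemma nsq_edge (G : GapKernel) (v : ℤ → ℝ) (A Cv : ℝ)
    (hCv : ∀ N : ℕ, ∑ g ∈ Icc (1 : ℤ) N, (g : ℝ) ^ 2 * (v g - A) ^ 2 ≤ Cv) (N : ℕ) (hN : 1 ≤ N) :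
    nsq N (fun g => ((∑ g' ∈ (Icc (g - G.R) (g + G.R)).filter (fun g' => (N : ℤ) < g'),
      G.Kc g g' * (v g' - A) : ℝ) : ℂ)) ≤ (2 * G.R + 1) ^ 3 * Cv / N ^ 2 := by
  have hN' : (0 : ℝ) < N := by exact_mod_cast hN
  have hCv0 : 0 ≤ Cv := le_trans (Finset.sum_nonneg fun g _ => by positivity) (hCv 0)
  have hpt : ∀ g' : ℤ, (N : ℤ) < g' → (v g' - A) ^ 2 ≤ Cv / N ^ 2 := by
    intro g' hg'
    have h1 : (g' : ℝ) ^ 2 * (v g' - A) ^ 2 ≤ Cv := by
      have h2 := hCv g'.toNat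
      refine le_trans ?_ h2
      refine Finset.single_le_sum (f := fun g : ℤ => (g : ℝ) ^ 2 * (v g - A) ^ 2)
        (fun g _ => by positivity) ?_
      rw [Finset.mem_Icc]
      omega
    have h3 : (N : ℝ) ≤ g' := by exact_mod_cast hg'.le
    rw [le_div_iff₀ (by positivity)]
    nlinarith [sq_nonneg (v g' - A), mul_le_mul h3 h3 hN'.le (by linarith : (0:ℝ) ≤ g')]
  have hterm : ∀ g : ℤ, ‖((∑ g' ∈ (Icc (g - G.R) (g + G.R)).filter (fun g' => (N : ℤ) < g'),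
      G.Kc g g' * (v g' - A) : ℝ) : ℂ)‖ ^ 2 ≤ (2 * G.R + 1) ^ 2 * (Cv / N ^ 2) := by
    intro g
    rw [Complex.norm_real, Real.norm_eq_abs, sq_abs]
    refine sq_sum_le_card_mul_sum_sq.trans ?_
    have hcard : (((Icc (g - (G.R : ℤ)) (g + G.R)).filter (fun g' => (N : ℤ) < g')).card : ℝ) ≤ 2 * G.R + 1 := by
      have h3 := Finset.card_filter_le (Icc (g - (G.R : ℤ)) (g + G.R)) (fun g' => (N : ℤ) < g')
      rw [Int.card_Icc] at h3
      have h4 : (g + (G.R : ℤ) + 1 - (g - G.R)).toNat = 2 * G.R + 1 := by omega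
      rw [h4] at h3
      exact_mod_cast h3
    have hsum : ∑ g' ∈ (Icc (g - (G.R : ℤ)) (g + G.R)).filter (fun g' => (N : ℤ) < g'),
        (G.Kc g g' * (v g' - A)) ^ 2 ≤ (2 * G.R + 1) * (Cv / N ^ 2) := by
      calc _ ≤ ∑ g' ∈ (Icc (g - (G.R : ℤ)) (g + G.R)).filter (fun g' => (N : ℤ) < g'), Cv / N ^ 2 := by
            refine Finset.sum_le_sum fun g' hg' => ?_
            rw [Finset.mem_filter] at hg'
            have h1 := hpt g' hg'.2
            have h2 := G.Kc_le_one g g'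
            have h3 := G.Kc_nonneg g g'
            rw [mul_pow]
            have h4 : G.Kc g g' ^ 2 ≤ 1 := by nlinarith
            nlinarith [sq_nonneg (v g' - A)]
        _ ≤ _ := by
            rw [Finset.sum_const, nsmul_eq_mul]
            gcongr
    calc _ ≤ (2 * G.R + 1 : ℝ) * ((2 * G.R + 1) * (Cv / N ^ 2)) := by
          gcongr
      _ = _ := by ring
  -- only the last R values of g contribute
  have hzero : ∀ g ∈ Icc (1 : ℤ) N, g ∉ Icc ((N : ℤ) - G.R) N →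
      ‖((∑ g' ∈ (Icc (g - G.R) (g + G.R)).filter (fun g' => (N : ℤ) < g'),
      G.Kc g g' * (v g' - A) : ℝ) : ℂ)‖ ^ 2 = 0 := by
    intro g hg hg2
    rw [Finset.mem_Icc] at hg hg2
    have : (Icc (g - (G.R : ℤ)) (g + G.R)).filter (fun g' => (N : ℤ) < g') = ∅ := by
      ext x
      simp only [Finset.mem_filter, Finset.mem_Icc, Finset.notMem_empty, iff_false]
      omega
    rw [this]
    simp
  unfold nsq
  rw [← Finset.sum_filter_add_sum_filter_not (Icc (1 : ℤ) N) (fun g => g ∈ Icc ((N : ℤ) - G.R) N)]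
  have h0 : ∑ g ∈ (Icc (1 : ℤ) N).filter (fun g => ¬ g ∈ Icc ((N : ℤ) - G.R) N),
      ‖((∑ g' ∈ (Icc (g - G.R) (g + G.R)).filter (fun g' => (N : ℤ) < g'),
      G.Kc g g' * (v g' - A) : ℝ) : ℂ)‖ ^ 2 = 0 := by
    refine Finset.sum_eq_zero fun g hg => ?_
    rw [Finset.mem_filter] at hg
    exact hzero g hg.1 hg.2
  rw [h0, add_zero]
  have hc : (((Icc (1 : ℤ) N).filter (fun g => g ∈ Icc ((N : ℤ) - G.R) N)).card : ℝ) ≤ 2 * G.R + 1 := by
    have h1 : (Icc (1 : ℤ) N).filter (fun g => g ∈ Icc ((N : ℤ) - G.R) N) ⊆ Icc ((N : ℤ) - G.R) N := by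
      intro x hx
      exact (Finset.mem_filter.mp hx).2
    have h2 := Finset.card_le_card h1
    rw [Int.card_Icc] at h2
    have h3 : ((N : ℤ) + 1 - (N - G.R)).toNat = G.R + 1 := by omega
    rw [h3] at h2
    have h4 : (((Icc (1 : ℤ) N).filter (fun g => g ∈ Icc ((N : ℤ) - G.R) N)).card : ℝ) ≤ G.R + 1 := by
      exact_mod_cast h2
    have h5 : (0 : ℝ) ≤ G.R := by positivity
    linarith
  calc _ ≤ ∑ g ∈ (Icc (1 : ℤ) N).filter (fun g => g ∈ Icc ((N : ℤ) - G.R) N),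
        (2 * G.R + 1 : ℝ) ^ 2 * (Cv / N ^ 2) := Finset.sum_le_sum fun g _ => hterm g
    _ ≤ (2 * G.R + 1) * ((2 * G.R + 1 : ℝ) ^ 2 * (Cv / N ^ 2)) := by
        rw [Finset.sum_const, nsmul_eq_mul]
        gcongr
    _ = _ := by ring

end Pool.Agent.Gap
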