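import Mathlib
import Pool.Agent.Lib_helper79.Gap.EY

/-! Module E: scaling asymptotics. -/

set_option autoImplicit false

open Finset Filter Topology

namespace Pool.Agent.Gap

/-- `n^{1/4}` -/
noncomputable def qn (n : ℕ) : ℝ := Real.sqrt (Real.sqrt n)

lemma qn_sq (n : ℕ) : qn n ^ 2 = Real.sqrt n := Real.sq_sqrt (Real.sqrt_nonneg _)

lemma qn_four (n : ℕ) : qn n ^ 4 = n := by
  have : qn n ^ 4 = (qn n ^ 2) ^ 2 := by ring
  rw [this, qn_sq, Real.sq_sqrt (Nat.cast_nonneg n)]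

lemma qn_six (n : ℕ) : qn n ^ 6 = n * Real.sqrt n := by
  have : qn n ^ 6 = qn n ^ 4 * qn n ^ 2 := by ring
  rw [this, qn_four, qn_sq]

lemma qn_nonneg (n : ℕ) : 0 ≤ qn n := Real.sqrt_nonneg _

lemma qn_pos (n : ℕ) (hn : 1 ≤ n) : 0 < qn n := by
  have : (0 : ℝ) < n := by exact_mod_cast hn
  unfold qn
  positivity

lemma sqrt_atTop : Tendsto (fun n : ℕ => Real.sqrt n) atTop atTop :=
  Real.tendsto_sqrt_atTop.comp tendsto_natCast_atTop_atTop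

lemma qn_atTop : Tendsto qn atTop atTop :=
  Real.tendsto_sqrt_atTop.comp sqrt_atTop

lemma inv_qn : Tendsto (fun n => (qn n)⁻¹) atTop (𝓝 0) := tendsto_inv_atTop_zero.comp qn_atTop

section

variable {G : GapKernel} {n0 N : ℕ → ℕ}

lemma Scales.ratio (h : Scales G n0 N) :
    Tendsto (fun n : ℕ => (n : ℝ) / n0 n) atTop (𝓝 (2 * G.sig2 / G.mbar)⁻¹) := by
  have := h.lim.inv₀ G.beta_pos.ne'
  refine this.congr fun n => ?_
  rw [inv_div]

lemma Scales.ev_n0 (h : Scales G n0 N) : ∀ᶠ n in atTop, 1 ≤ n0 n :=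
  h.n0_atTop.eventually_ge_atTop 1

/-- `n (1/4 - z') → w / (4 β)` -/
lemma tendsto_zn' (h : Scales G n0 N) (w : ℂ) :
    Tendsto (fun n : ℕ => (n : ℂ) * ((1 / 4 : ℂ) - zn (1 / 4) w (n0 n))) atTop
      (𝓝 (((2 * G.sig2 / G.mbar)⁻¹ : ℝ) * ((1 / 4 : ℂ) * w))) := by
  have h1 := tendsto_zn (1 / 4) w n0 h.n0_atTop
  have h2 : Tendsto (fun n : ℕ => (((n : ℝ) / n0 n : ℝ) : ℂ)) atTop
      (𝓝 (((2 * G.sig2 / G.mbar)⁻¹ : ℝ) : ℂ)) :=
    (Complex.continuous_ofReal.tendsto _).comp h.ratio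
  have h3 := h2.mul h1
  have e4 : (((1 / 4 : ℝ) : ℝ) : ℂ) = (1 / 4 : ℂ) := by push_cast; ring
  rw [e4] at h3
  refine h3.congr' ?_
  filter_upwards [h.ev_n0] with n hn
  have hn' : ((n0 n : ℕ) : ℂ) ≠ 0 := by
    have : n0 n ≠ 0 := by omega
    exact_mod_cast this
  push_cast
  field_simp

lemma tendsto_zn'_norm (h : Scales G n0 N) (w : ℂ) :
    Tendsto (fun n : ℕ => (n : ℝ) * ‖(1 / 4 : ℂ) - zn (1 / 4) w (n0 n)‖) atTop
      (𝓝 ((2 * G.sig2 / G.mbar)⁻¹ * (1 / 4 * ‖w‖))) := by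
  have h1 := (tendsto_zn' h w).norm
  have e : ‖(((2 * G.sig2 / G.mbar)⁻¹ : ℝ) : ℂ) * ((1 / 4 : ℂ) * w)‖
      = (2 * G.sig2 / G.mbar)⁻¹ * (1 / 4 * ‖w‖) := by
    have hb : 0 ≤ (2 * G.sig2 / G.mbar)⁻¹ := (inv_pos.mpr G.beta_pos).le
    rw [norm_mul, norm_mul, Complex.norm_real, Real.norm_of_nonneg hb]
    norm_num
  rw [e] at h1
  refine h1.congr fun n => ?_
  rw [norm_mul]
  simp

/-- matching of the spectral parameters -/
lemma tendsto_match (h : Scales G n0 N) (w : ℂ) :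
    Tendsto (fun n : ℕ => (n : ℝ) * ‖2 * (G.sig2 : ℂ) * (1 - 4 * zn (1 / 4) w (n0 n))
      - (G.mbar : ℂ) * (1 - zn G.rho w n / (G.rho : ℂ))‖) atTop (𝓝 0) := by
  have h1 := (tendsto_zn' h w).const_mul (8 * (G.sig2 : ℂ))
  have h2 := (tendsto_zn G.rho w id tendsto_id).const_mul ((G.mbar : ℂ) / G.rho)
  have h3 := (h1.sub h2).norm
  have hr : (G.rho : ℂ) ≠ 0 := by exact_mod_cast G.rho_pos.ne'
  have hs : (G.sig2 : ℂ) ≠ 0 := by exact_mod_cast G.sig2_pos.ne'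
  have hm : (G.mbar : ℂ) ≠ 0 := by exact_mod_cast G.mbar_pos.ne'
  have e : 8 * (G.sig2 : ℂ) * ((((2 * G.sig2 / G.mbar)⁻¹ : ℝ) : ℂ) * ((1 / 4 : ℂ) * w))
      - (G.mbar : ℂ) / G.rho * ((G.rho : ℂ) * w) = 0 := by
    push_cast
    field_simp
    ring
  rw [e, norm_zero] at h3
  refine h3.congr fun n => ?_
  have e2 : 8 * (G.sig2 : ℂ) * ((n : ℂ) * ((1 / 4 : ℂ) - zn (1 / 4) w (n0 n)))
      - (G.mbar : ℂ) / G.rho * (((id n : ℕ) : ℂ) * ((G.rho : ℂ) - zn G.rho w (id n)))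
      = (n : ℂ) * (2 * (G.sig2 : ℂ) * (1 - 4 * zn (1 / 4) w (n0 n))
      - (G.mbar : ℂ) * (1 - zn G.rho w n / (G.rho : ℂ))) := by
    simp only [id]
    field_simp
    ring
  rw [e2, norm_mul]
  simp

lemma epsn_mul (lam : ℝ) (n : ℕ) (hn : 1 ≤ n) : (n : ℝ) * Real.sqrt n * epsn lam n = lam := by
  have : (0 : ℝ) < n := by exact_mod_cast hn
  unfold epsn
  field_simp

lemma lam0_eq (lam : ℝ) : lam0 G lam = G.hbar / (2 * G.sig2) *
    ((2 * G.sig2 / G.mbar) * Real.sqrt (2 * G.sig2 / G.mbar)) * lam := by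
  unfold lam0
  congr 2
  have hb := G.beta_pos
  rw [show (3 / 2 : ℝ) = 1 + 1 / 2 by norm_num, Real.rpow_add hb, Real.rpow_one, Real.sqrt_eq_rpow]

/-- `n^{3/2} eps' → hbar lam / (2 sig2)` -/
lemma tendsto_eps' (h : Scales G n0 N) (lam : ℝ) :
    Tendsto (fun n : ℕ => (n : ℝ) * Real.sqrt n * epsn (lam0 G lam) (n0 n)) atTop
      (𝓝 (G.hbar / (2 * G.sig2) * lam)) := by
  have hb := G.beta_pos
  have h1 := h.ratio
  have h2 : Tendsto (fun n : ℕ => Real.sqrt ((n : ℝ) / n0 n)) atTop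
      (𝓝 (Real.sqrt (2 * G.sig2 / G.mbar)⁻¹)) := (Real.continuous_sqrt.tendsto _).comp h1
  have h3 := (h1.mul h2).mul_const (lam0 G lam)
  have e : (2 * G.sig2 / G.mbar)⁻¹ * Real.sqrt (2 * G.sig2 / G.mbar)⁻¹ * lam0 G lam
      = G.hbar / (2 * G.sig2) * lam := by
    rw [lam0_eq, Real.sqrt_inv]
    have hs : 0 < Real.sqrt (2 * G.sig2 / G.mbar) := Real.sqrt_pos.mpr hb
    have hb' := hb.ne'
    set b := 2 * G.sig2 / G.mbar
    have hsig := G.sig2_pos.ne'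
    field_simp
  rw [e] at h3
  refine h3.congr' ?_
  filter_upwards [h.ev_n0] with n hn
  have hn' : (0 : ℝ) < n0 n := by exact_mod_cast hn
  unfold epsn
  rw [Real.sqrt_div (Nat.cast_nonneg n)]
  field_simp

lemma tendsto_match_eps (h : Scales G n0 N) (lam : ℝ) :
    Tendsto (fun n : ℕ => (n : ℝ) * Real.sqrt n *
      |2 * G.sig2 * epsn (lam0 G lam) (n0 n) - G.hbar * epsn lam n|) atTop (𝓝 0) := by
  have h1 := (tendsto_eps' h lam).const_mul (2 * G.sig2)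
  have h2 : Tendsto (fun n : ℕ => G.hbar * ((n : ℝ) * Real.sqrt n * epsn lam n)) atTop
      (𝓝 (G.hbar * lam)) := by
    refine tendsto_const_nhds.congr' ?_
    filter_upwards [eventually_ge_atTop 1] with n hn
    rw [epsn_mul lam n hn]
  have h3 := (h1.sub h2).abs
  have e : 2 * G.sig2 * (G.hbar / (2 * G.sig2) * lam) - G.hbar * lam = 0 := by
    have := G.sig2_pos.ne'
    field_simp
    ring
  rw [e, abs_zero] at h3
  refine h3.congr fun n => ?_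
  have e2 : 2 * G.sig2 * ((n : ℝ) * Real.sqrt n * epsn (lam0 G lam) (n0 n))
      - G.hbar * ((n : ℝ) * Real.sqrt n * epsn lam n)
      = ((n : ℝ) * Real.sqrt n) * (2 * G.sig2 * epsn (lam0 G lam) (n0 n) - G.hbar * epsn lam n) := by
    ring
  rw [e2, abs_mul, abs_of_nonneg (by positivity)]

lemma lam0_nonneg (lam : ℝ) (h : 0 ≤ lam) : 0 ≤ lam0 G lam := by
  unfold lam0
  have := G.hbar_pos
  have := G.sig2_pos
  have := G.beta_pos
  positivity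

lemma epsn_nonneg (lam : ℝ) (h : 0 ≤ lam) (n : ℕ) : 0 ≤ epsn lam n := by
  unfold epsn
  positivity

end

end Pool.Agent.Gap
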