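import Mathlib
import Pool.Agent.Lib_helper79.Gap.ES

/-! Module E: bounds for the staircase solution and smallness of the bulk residual. -/

set_option autoImplicit false

open Finset Filter Topology

namespace Pool.Agent.Gap

lemma l1_src1 (z : ℂ) : l1 1 (src1 z) = ‖z‖ := by
  unfold l1 src1
  simp

lemma nsq_mulg_zero (N : ℕ) (v : ℤ → ℂ) : nsq N (mulg 0 v) = nsq N v := by
  unfold nsq mulg
  simp

lemma nsq_nonneg (N : ℕ) (v : ℤ → ℂ) : 0 ≤ nsq N v :=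
  Finset.sum_nonneg fun _ _ => sq_nonneg _

lemma En_nonneg (N : ℕ) (v : ℤ → ℂ) : 0 ≤ En N v :=
  Finset.sum_nonneg fun _ _ => sq_nonneg _

lemma Pot_nonneg (eps : ℝ) (he : 0 ≤ eps) (N : ℕ) (v : ℤ → ℂ) : 0 ≤ Pot eps N v := by
  refine Finset.sum_nonneg fun g hg => mul_nonneg ?_ (sq_nonneg _)
  rw [Finset.mem_Icc] at hg
  have h1 : (0 : ℝ) ≤ g := by exact_mod_cast (by omega : (0 : ℤ) ≤ g)
  have : Real.exp (-(eps * g)) ≤ 1 := by
    rw [Real.exp_le_one_iff]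
    have : 0 ≤ eps * (g : ℝ) := by positivity
    linarith
  linarith

lemma norm_le_of_nsq_mulg2 (N : ℕ) (hN : 1 ≤ N) (v : ℤ → ℂ) :
    (N : ℝ) ^ 2 * ‖v N‖ ≤ Real.sqrt (nsq N (mulg 2 v)) := by
  refine Real.le_sqrt_of_sq_le ?_
  have h : ‖mulg 2 v N‖ ^ 2 ≤ nsq N (mulg 2 v) := by
    refine Finset.single_le_sum (f := fun g : ℤ => ‖mulg 2 v g‖ ^ 2) (fun _ _ => sq_nonneg _) ?_
    rw [Finset.mem_Icc]
    constructor
    · exact_mod_cast hN
    · exact le_rfl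
  refine le_trans (le_of_eq ?_) h
  unfold mulg
  rw [norm_mul, norm_pow]
  simp

section

variable {G : GapKernel} {n0 N : ℕ → ℕ}

/-- bounds of the staircase solution in powers of `q = n^{1/4}` -/
lemma v0_bounds (hSUP : SUP_Stmt) (hW : W_Stmt) (h : Scales G n0 N) (lam : ℝ) (hlam : 0 ≤ lam)
    (w : ℂ) (hw : 0 < w.re) (v0 : ℕ → ℤ → ℂ)
    (hv0 : ∀ n, 1 ≤ n → 1 ≤ n0 n →
      stair.Solves (epsn (lam0 G lam) (n0 n)) (zn (1 / 4) w (n0 n)) (N n) (v0 n)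
          (src1 (zn (1 / 4) w (n0 n)))) :
    ∃ C : ℝ, 0 < C ∧ ∀ᶠ n in atTop,
      Real.sqrt (nsq (N n) (v0 n)) ≤ C * qn n ∧
      Real.sqrt (nsq (N n) (mulg 1 (v0 n))) ≤ C * qn n ^ 3 ∧
      Real.sqrt (nsq (N n) (mulg 2 (v0 n))) ≤ C * qn n ^ 5 ∧
      Real.sqrt (En (N n) (v0 n)) ≤ C ∧
      Real.sqrt (En (N n) (mulg 1 (v0 n))) ≤ C * qn n := by
  obtain ⟨Cs, hCs, hS⟩ := hSUP stair 1
  obtain ⟨Cw, hCw, hW'⟩ := hW stair 1
  -- lower bound of δ'
  have hwn : 0 < ‖w‖ := by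
    rw [norm_pos_iff]
    rintro rfl
    simp at hw
  set L : ℝ := (2 * G.sig2 / G.mbar)⁻¹ * (1 / 4 * ‖w‖) with hL
  have hLpos : 0 < L := by
    have := inv_pos.mpr G.beta_pos
    positivity
  have h1 := tendsto_zn'_norm h w
  have h2 : ∀ᶠ n : ℕ in atTop, L / 2 < (n : ℝ) * ‖(1 / 4 : ℂ) - zn (1 / 4) w (n0 n)‖ :=
    h1.eventually_const_lt (by rw [← hL]; linarith)
  -- constants: choose c with δ' ≥ c² / q⁴,  c = sqrt (L/2)
  set c : ℝ := Real.sqrt (L / 2) with hc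
  have hcpos : 0 < c := Real.sqrt_pos.mpr (by positivity)
  have hc2 : c ^ 2 = L / 2 := Real.sq_sqrt (by positivity)
  set Cb : ℝ := Cw / c + Cw / (c * c ^ 2) + Cw / (c * (c ^ 2) ^ 2) + Cs + 1 with hCb
  have hCbpos : 0 < Cb := by positivity
  refine ⟨Real.sqrt Cb, Real.sqrt_pos.mpr hCbpos, ?_⟩
  filter_upwards [h2, eventually_ge_atTop 1, h.ev_n0] with n hn hn1 hn0
  have hq := qn_pos n hn1
  have hsol := hv0 n hn1 hn0
  set z' := zn (1 / 4) w (n0 n) with hz'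
  set e' := epsn (lam0 G lam) (n0 n) with he'
  have he'0 : 0 ≤ e' := epsn_nonneg _ (lam0_nonneg lam hlam) _
  have hz'le : ‖z'‖ ≤ 1 / 4 := zn_norm_le (1 / 4) (by norm_num) w hw _
  have hz'ne : z' ≠ ((stair.rho : ℝ) : ℂ) := zn_ne (1 / 4) (by norm_num) w hw _ hn0
  have hstair : stair.rho = 1 / 4 := rfl
  have hsrc : ∀ g : ℤ, ((1 : ℕ) : ℤ) < g → src1 z' g = 0 := by
    intro g hg
    unfold src1
    rw [if_neg]
    push_cast at hg
    omega
  have hl1 : l1 1 (src1 z') ≤ 1 := by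
    rw [l1_src1]
    linarith
  have hl10 : 0 ≤ l1 1 (src1 z') := by
    rw [l1_src1]
    exact norm_nonneg _
  have hl1sq : (l1 1 (src1 z')) ^ 2 ≤ 1 := by nlinarith
  obtain ⟨hWk, hWe⟩ := hW' (N n) e' z' (v0 n) (src1 z') he'0 (by rw [hstair]; exact hz'le) hz'ne
    hsol hsrc
  obtain ⟨_, hSe⟩ := hS (N n) e' z' (v0 n) (src1 z') he'0 (by rw [hstair]; exact hz'le) hsol hsrc
  have hδeq : ‖((stair.rho : ℝ) : ℂ) - z'‖ = ‖(1 / 4 : ℂ) - z'‖ := by
    rw [hstair]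
    push_cast
    rfl
  rw [hδeq] at hWk hWe
  set δ := ‖(1 / 4 : ℂ) - z'‖ with hδ
  have hn' : (0 : ℝ) < n := by exact_mod_cast hn1
  have hδlow : c ^ 2 / qn n ^ 4 ≤ δ := by
    rw [qn_four, hc2, div_le_iff₀ hn']
    linarith
  have hδpos : 0 < δ := lt_of_lt_of_le (by positivity) hδlow
  have hsδ : c / qn n ^ 2 ≤ Real.sqrt δ := by
    refine Real.le_sqrt_of_sq_le ?_
    refine le_trans (le_of_eq ?_) hδlow
    rw [div_pow]
    ring
  have hkey : ∀ k : ℕ, k ≤ 2 → nsq (N n) (mulg k (v0 n)) ≤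
      Cw / (c * (c ^ 2) ^ k) * (qn n ^ (1 + 2 * k)) ^ 2 := by
    intro k hk
    refine (hWk k hk).trans ?_
    have h3 : c / qn n ^ 2 * (c ^ 2 / qn n ^ 4) ^ k ≤ Real.sqrt δ * δ ^ k := by
      gcongr
    calc Cw * (l1 1 (src1 z')) ^ 2 / (Real.sqrt δ * δ ^ k)
        ≤ Cw * 1 / (c / qn n ^ 2 * (c ^ 2 / qn n ^ 4) ^ k) := by
          gcongr
      _ = _ := by
          rw [div_pow]
          field_simp
          ring
  have hsqrt : ∀ (a b x : ℝ), 0 ≤ x → a ≤ b * x ^ 2 → b ≤ Cb → Real.sqrt a ≤ Real.sqrt Cb * x := by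
    intro a b x hx hab hb
    rw [← Real.sqrt_sq hx, ← Real.sqrt_mul hCbpos.le]
    refine Real.sqrt_le_sqrt (hab.trans ?_)
    gcongr
  have hp1 : 0 ≤ Cw / c := by positivity
  have hp2 : 0 ≤ Cw / (c * c ^ 2) := by positivity
  have hp3 : 0 ≤ Cw / (c * (c ^ 2) ^ 2) := by positivity
  refine ⟨?_, ?_, ?_, ?_, ?_⟩
  · have := hkey 0 (by norm_num)
    rw [nsq_mulg_zero] at this
    refine hsqrt _ (Cw / c) _ hq.le ?_ (by rw [hCb]; linarith)
    simpa using this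
  · have := hkey 1 (by norm_num)
    refine hsqrt _ (Cw / (c * c ^ 2)) _ (by positivity) ?_ (by rw [hCb]; linarith)
    simpa using this
  · have := hkey 2 (by norm_num)
    refine hsqrt _ (Cw / (c * (c ^ 2) ^ 2)) _ (by positivity) ?_ (by rw [hCb]; linarith)
    simpa using this
  · have h3 : En (N n) (v0 n) ≤ Cs := by
      have := Pot_nonneg e' he'0 (N n) (v0 n)
      have h4 : Cs * (l1 1 (src1 z')) ^ 2 ≤ Cs * 1 := by gcongr
      linarith
    refine Real.sqrt_le_sqrt ?_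
    rw [hCb]
    linarith
  · have h3 := hWe 1 le_rfl (by norm_num)
    have h4 := Pot_nonneg e' he'0 (N n) (mulg 1 (v0 n))
    have h5 : En (N n) (mulg 1 (v0 n)) ≤ Cw / c * qn n ^ 2 := by
      have h6 : Cw * (l1 1 (src1 z')) ^ 2 * Real.sqrt δ / δ ^ 1 ≤ Cw / c * qn n ^ 2 := by
        have h7 : Real.sqrt δ / δ = 1 / Real.sqrt δ := by
          rw [Real.sqrt_div_self', one_div]
        calc Cw * (l1 1 (src1 z')) ^ 2 * Real.sqrt δ / δ ^ 1
            = Cw * (l1 1 (src1 z')) ^ 2 * (Real.sqrt δ / δ) := by ring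
          _ = Cw * (l1 1 (src1 z')) ^ 2 * (1 / Real.sqrt δ) := by rw [h7]
          _ ≤ Cw * 1 * (1 / (c / qn n ^ 2)) := by gcongr
          _ = _ := by field_simp
      linarith
    exact hsqrt _ (Cw / c) _ hq.le h5 (by rw [hCb]; linarith)

/-- bulk residual: `q³ |L v0|_{g>R} → 0` -/
lemma bulk_small (hSUP : SUP_Stmt) (hW : W_Stmt) (hEB : EB_Stmt) (h : Scales G n0 N)
    (lam : ℝ) (hlam : 0 ≤ lam)
    (w : ℂ) (hw : 0 < w.re) (v0 : ℕ → ℤ → ℂ)
    (hv0 : ∀ n, 1 ≤ n → 1 ≤ n0 n →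
      stair.Solves (epsn (lam0 G lam) (n0 n)) (zn (1 / 4) w (n0 n)) (N n) (v0 n)
          (src1 (zn (1 / 4) w (n0 n)))) :
    Tendsto (fun n : ℕ => qn n ^ 3 * Real.sqrt (∑ g ∈ Icc ((G.R : ℤ) + 1) (N n),
      ‖G.Lop (epsn lam n) (zn G.rho w n) (N n) (v0 n) g‖ ^ 2)) atTop (𝓝 0) := by
  obtain ⟨C, hC, hb⟩ := v0_bounds hSUP hW h lam hlam w hw v0 hv0
  obtain ⟨CE, hCE, hE⟩ := hEB G
  -- basic limits
  have hm1 := tendsto_match h w
  have hm2 := tendsto_match_eps h lam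
  have hd1 := tendsto_zn_norm G.rho G.rho_pos w id tendsto_id
  have hd2 := tendsto_zn'_norm h w
  have he2 := tendsto_eps' h lam
  have hi := inv_qn
  set d : ℕ → ℝ := fun n => ‖(G.rho : ℂ) - zn G.rho w n‖ + ‖(1 / 4 : ℂ) - zn (1 / 4) w (n0 n)‖
  set e : ℕ → ℝ := fun n => epsn lam n + epsn (lam0 G lam) (n0 n)
  set La := G.rho * ‖w‖ + (2 * G.sig2 / G.mbar)⁻¹ * (1 / 4 * ‖w‖)
  set Le := lam + G.hbar / (2 * G.sig2) * lam
  have ha : Tendsto (fun n : ℕ => (n : ℝ) * d n) atTop (𝓝 La) := by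
    refine (hd1.add hd2).congr fun n => ?_
    simp only [d, id]
    ring
  have hee : Tendsto (fun n : ℕ => (n : ℝ) * Real.sqrt n * e n) atTop (𝓝 Le) := by
    have h1 : Tendsto (fun n : ℕ => (n : ℝ) * Real.sqrt n * epsn lam n) atTop (𝓝 lam) := by
      refine tendsto_const_nhds.congr' ?_
      filter_upwards [eventually_ge_atTop 1] with n hn
      rw [epsn_mul lam n hn]
    refine (h1.add he2).congr fun n => ?_
    simp only [e]
    ring
  -- the dominating function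
  have hlim : Tendsto (fun n : ℕ =>
      C * ((n : ℝ) * ‖2 * (G.sig2 : ℂ) * (1 - 4 * zn (1 / 4) w (n0 n))
        - (G.mbar : ℂ) * (1 - zn G.rho w n / (G.rho : ℂ))‖)
      + 2 * C * ((n : ℝ) * Real.sqrt n *
        |2 * G.sig2 * epsn (lam0 G lam) (n0 n) - G.hbar * epsn lam n|)
      + CE * (C * ((n : ℝ) * d n) * (qn n)⁻¹
        + 2 * C * ((n : ℝ) * Real.sqrt n * e n) * ((qn n)⁻¹) ^ 2
        + C * ((n : ℝ) * d n) ^ 2 * ((qn n)⁻¹) ^ 4
        + C * ((n : ℝ) * Real.sqrt n * e n) ^ 2 * ((qn n)⁻¹) ^ 4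
        + C * ((qn n)⁻¹) ^ 8)) atTop (𝓝 0) := by
    have := ((hm1.const_mul C).add (hm2.const_mul (2 * C))).add
      ((((((ha.const_mul C).mul hi).add ((hee.const_mul (2 * C)).mul (hi.pow 2))).add
        (((ha.pow 2).const_mul C).mul (hi.pow 4))).add
        (((hee.pow 2).const_mul C).mul (hi.pow 4))).add ((hi.pow 8).const_mul C) |>.const_mul CE)
    simpa using this
  refine squeeze_zero' (Eventually.of_forall fun n => by have := qn_nonneg n; positivity) ?_ hlim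
  -- eventually small parameters
  have hepsto : Tendsto (fun n : ℕ => epsn lam n) atTop (𝓝 0) := by
    have h1 : Tendsto (fun n : ℕ => (n : ℝ) * Real.sqrt n) atTop atTop :=
      tendsto_natCast_atTop_atTop.atTop_mul_atTop₀ sqrt_atTop
    exact h1.const_div_atTop lam
  have hepsto' : Tendsto (fun n : ℕ => epsn (lam0 G lam) (n0 n)) atTop (𝓝 0) := by
    have h1 : Tendsto (fun n : ℕ => (n : ℝ) * Real.sqrt n) atTop atTop :=
      tendsto_natCast_atTop_atTop.atTop_mul_atTop₀ sqrt_atTop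
    exact (h1.const_div_atTop (lam0 G lam)).comp h.n0_atTop
  have hδ'to : Tendsto (fun n : ℕ => ‖(1 / 4 : ℂ) - zn (1 / 4) w (n0 n)‖) atTop (𝓝 0) := by
    have h1 := hd2.mul (tendsto_inv_atTop_nhds_zero_nat (𝕜 := ℝ))
    rw [mul_zero] at h1
    refine h1.congr' ?_
    filter_upwards [eventually_ge_atTop 1] with n hn
    have : (n : ℝ) ≠ 0 := by
      have : (0 : ℝ) < n := by exact_mod_cast hn
      exact this.ne'
    field_simp
  filter_upwards [hb, eventually_ge_atTop 1, h.ev_n0, hepsto.eventually_le_const (by norm_num : (0:ℝ) < 1),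
    hepsto'.eventually_le_const (by norm_num : (0:ℝ) < 1),
    hδ'to.eventually_le_const (by norm_num : (0:ℝ) < 1 / 8)] with n hn hn1 hn0 he1 he2' hd'
  obtain ⟨b0, b1, b2, b3, b4⟩ := hn
  have hq := qn_pos n hn1
  have hsol := hv0 n hn1 hn0
  have he0 : 0 ≤ epsn lam n := epsn_nonneg _ hlam _
  have he'0 : 0 ≤ epsn (lam0 G lam) (n0 n) := epsn_nonneg _ (lam0_nonneg lam hlam) _
  have hbd := hE (N n) (epsn lam n) (epsn (lam0 G lam) (n0 n)) (zn G.rho w n) (zn (1 / 4) w (n0 n))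
    (v0 n) he0 he1 he'0 he2' (zn_norm_le _ G.rho_pos w hw _)
    (zn_norm_le (1 / 4) (by norm_num) w hw _) hd' hsol
  have hNn : 1 ≤ N n := by
    have := h.big n
    nlinarith
  have hN2 : (4 : ℝ) * n ^ 2 ≤ N n := by
    have := h.big n
    have h1 : 4 * n ^ 2 ≤ N n := by omega
    exact_mod_cast h1
  have b5 : ‖v0 n (N n)‖ ≤ C * qn n ^ 5 * ((qn n)⁻¹) ^ 16 := by
    have h1 := (norm_le_of_nsq_mulg2 (N n) hNn (v0 n)).trans b2
    have h3 : qn n ^ 16 ≤ (N n : ℝ) ^ 2 := by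
      have h4 : qn n ^ 8 ≤ (N n : ℝ) := by
        have : qn n ^ 8 = (qn n ^ 4) ^ 2 := by ring
        rw [this, qn_four]
        nlinarith [sq_nonneg (n : ℝ)]
      calc qn n ^ 16 = (qn n ^ 8) ^ 2 := by ring
        _ ≤ _ := by gcongr
    have h4 : qn n ^ 16 * ‖v0 n (N n)‖ ≤ C * qn n ^ 5 := by
      refine le_trans ?_ h1
      gcongr
    rw [inv_pow, ← div_eq_mul_inv, le_div_iff₀ (by positivity)]
    linarith
  have hd0 : 0 ≤ ‖(G.rho : ℂ) - zn G.rho w n‖ + ‖(1 / 4 : ℂ) - zn (1 / 4) w (n0 n)‖ := by positivity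
  have hn4 := qn_four n
  have hn6 := qn_six n
  set M1 := ‖2 * (G.sig2 : ℂ) * (1 - 4 * zn (1 / 4) w (n0 n))
        - (G.mbar : ℂ) * (1 - zn G.rho w n / (G.rho : ℂ))‖ with hM1
  set M2 := |2 * G.sig2 * epsn (lam0 G lam) (n0 n) - G.hbar * epsn lam n| with hM2
  have hM1' : 0 ≤ M1 := norm_nonneg _
  have hM2' : 0 ≤ M2 := abs_nonneg _
  have hd_eq : ‖(G.rho : ℂ) - zn G.rho w n‖ + ‖(1 / 4 : ℂ) - zn (1 / 4) w (n0 n)‖ = d n := rfl
  have he_eq : epsn lam n + epsn (lam0 G lam) (n0 n) = e n := rfl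
  rw [hd_eq, he_eq] at hbd
  have hd0' : 0 ≤ d n := hd0
  have he0' : 0 ≤ e n := add_nonneg he0 he'0
  calc qn n ^ 3 * Real.sqrt (∑ g ∈ Icc ((G.R : ℤ) + 1) (N n),
      ‖G.Lop (epsn lam n) (zn G.rho w n) (N n) (v0 n) g‖ ^ 2)
      ≤ qn n ^ 3 * (M1 * (C * qn n) + 2 * M2 * (C * qn n ^ 3)
        + CE * (d n * C + e n * (C * qn n + C * qn n) + d n ^ 2 * (C * qn n)
          + e n ^ 2 * (C * qn n ^ 5) + C * qn n ^ 5 * ((qn n)⁻¹) ^ 16)) := by
        refine mul_le_mul_of_nonneg_left (hbd.trans ?_) (by positivity)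
        gcongr
    _ = _ := by
        rw [← hn6, ← hn4]
        field_simp
        ring

end

end Pool.Agent.Gap
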