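import Mathlib
import Pool.Agent.Lib_helper79.Gap.EBulk

/-! Module E: comparison of the solution of the model with the staircase solution. -/

set_option autoImplicit false

open Finset Filter Topology

namespace Pool.Agent.Gap

section

variable {G : GapKernel} {n0 N : ℕ → ℕ}

lemma delta_to (G : GapKernel) (w : ℂ) :
    Tendsto (fun n : ℕ => ‖(G.rho : ℂ) - zn G.rho w n‖) atTop (𝓝 0) := by
  have hd2 := tendsto_zn_norm G.rho G.rho_pos w id tendsto_id
  have h1 := hd2.mul (tendsto_inv_atTop_nhds_zero_nat (𝕜 := ℝ))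
  rw [mul_zero] at h1
  refine h1.congr' ?_
  filter_upwards [eventually_ge_atTop 1] with n hn
  have : (n : ℝ) ≠ 0 := by
    have : (0 : ℝ) < n := by exact_mod_cast hn
    exact this.ne'
  simp only [id]
  field_simp

lemma epsn_to (lam : ℝ) : Tendsto (fun n : ℕ => epsn lam n) atTop (𝓝 0) := by
  have h1 : Tendsto (fun n : ℕ => (n : ℝ) * Real.sqrt n) atTop atTop :=
    tendsto_natCast_atTop_atTop.atTop_mul_atTop₀ sqrt_atTop
  exact h1.const_div_atTop lam

lemma zn_to (G : GapKernel) (w : ℂ) : Tendsto (fun n : ℕ => zn G.rho w n) atTop (𝓝 (G.rho : ℂ)) := by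
  rw [tendsto_iff_norm_sub_tendsto_zero]
  refine (delta_to G w).congr fun n => ?_
  rw [norm_sub_rev]

/-- near the wall the staircase solution tends to 1 -/
lemma v0_to_one (hST : ST1_Stmt) (h : Scales G n0 N) (lam : ℝ) (hlam : 0 ≤ lam)
    (w : ℂ) (hw : 0 < w.re) (v0 : ℕ → ℤ → ℂ)
    (hv0 : ∀ n, 1 ≤ n → 1 ≤ n0 n →
      stair.Solves (epsn (lam0 G lam) (n0 n)) (zn (1 / 4) w (n0 n)) (N n) (v0 n)
          (src1 (zn (1 / 4) w (n0 n)))) (g : ℤ) (hg : 1 ≤ g) :
    Tendsto (fun n : ℕ => v0 n g) atTop (𝓝 1) := by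
  set κ : ℝ := ‖w‖ + 1 + lam0 G lam with hκ
  have hl0 := lam0_nonneg (G := G) lam hlam
  have hκpos : 0 < κ := by positivity
  obtain ⟨C, hC, hS⟩ := hST κ hκpos
  have hd := tendsto_zn_norm (1 / 4) (by norm_num) w n0 h.n0_atTop
  have hev : ∀ᶠ n : ℕ in atTop, (n0 n : ℝ) * ‖((1 / 4 : ℝ) : ℂ) - zn (1 / 4) w (n0 n)‖ < κ := by
    refine hd.eventually_lt_const ?_
    have := norm_nonneg w
    linarith
  have hb : Tendsto (fun n : ℕ => C * (g : ℝ) ^ 2 / Real.sqrt (n0 n)) atTop (𝓝 0) :=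
    (sqrt_atTop.comp h.n0_atTop).const_div_atTop _
  have hNlarge : ∀ᶠ n : ℕ in atTop, g ≤ N n := by
    filter_upwards [eventually_ge_atTop g.toNat, eventually_ge_atTop 1] with n hn hn1
    have := h.big n
    have h2 : n ≤ n ^ 2 := by nlinarith
    have : n ≤ N n := by omega
    omega
  have hsq : Tendsto (fun n : ℕ => ‖v0 n g - 1‖ ^ 2) atTop (𝓝 0) := by
    refine squeeze_zero' (Eventually.of_forall fun n => sq_nonneg _) ?_ hb
    filter_upwards [hev, h.ev_n0, hNlarge, eventually_ge_atTop 1] with n hn hn0 hN hn1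
    have hn0' : (0 : ℝ) < n0 n := by exact_mod_cast hn0
    refine hS (n0 n) (N n) (epsn (lam0 G lam) (n0 n)) (zn (1 / 4) w (n0 n)) (v0 n) hn0 ?_
      (epsn_nonneg _ hl0 _) (zn_norm_le (1 / 4) (by norm_num) w hw _) ?_ ?_ (hv0 n hn1 hn0) g hg hN
    · have := h.big n
      nlinarith
    · rw [le_div_iff₀ hn0']
      have e4 : (((1 / 4 : ℝ) : ℝ) : ℂ) = (1 / 4 : ℂ) := by push_cast; ring
      rw [e4] at hn
      linarith
    · rw [mul_comm, epsn_mul _ _ hn0]
      have := norm_nonneg w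
      linarith
  rw [tendsto_iff_norm_sub_tendsto_zero]
  have := (Real.continuous_sqrt.tendsto 0).comp hsq
  rw [Real.sqrt_zero] at this
  refine this.congr fun n => ?_
  simp only [Function.comp]
  exact Real.sqrt_sq (norm_nonneg _)

lemma Kz_to (G : GapKernel) (lam : ℝ) (hlam : 0 ≤ lam) (w : ℂ) (hw : 0 < w.re) (g g' : ℤ)
    (hg : 1 ≤ g) (hg' : 1 ≤ g') :
    Tendsto (fun n : ℕ => G.Kz 0 (epsn lam n) (zn G.rho w n) g g') atTop (𝓝 (G.Kc g g' : ℂ)) := by
  obtain ⟨C, hC, hK⟩ := G.exists_Kz_sub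
  rw [tendsto_iff_norm_sub_tendsto_zero]
  have hb : Tendsto (fun n : ℕ => C * (‖(G.rho : ℂ) - zn G.rho w n‖ + epsn lam n) * g') atTop (𝓝 0) := by
    have := (((delta_to G w).add (epsn_to lam)).const_mul C).mul_const (g' : ℝ)
    simpa using this
  refine squeeze_zero (fun n => norm_nonneg _) (fun n => ?_) hb
  rw [norm_sub_rev, ← G.Kz_crit]
  exact hK _ _ g g' (epsn_nonneg _ hlam _) (zn_norm_le _ G.rho_pos w hw _) hg hg'

lemma Lop_to_kap (hST : ST1_Stmt) (h : Scales G n0 N) (lam : ℝ) (hlam : 0 ≤ lam)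
    (w : ℂ) (hw : 0 < w.re) (v0 : ℕ → ℤ → ℂ)
    (hv0 : ∀ n, 1 ≤ n → 1 ≤ n0 n →
      stair.Solves (epsn (lam0 G lam) (n0 n)) (zn (1 / 4) w (n0 n)) (N n) (v0 n)
          (src1 (zn (1 / 4) w (n0 n)))) (g : ℤ) (hg : 1 ≤ g) :
    Tendsto (fun n : ℕ => G.Lop (epsn lam n) (zn G.rho w n) (N n) (v0 n) g) atTop
      (𝓝 (G.kap g : ℂ)) := by
  have h1 : Tendsto (fun n : ℕ => v0 n g - ∑ g' ∈ Icc (g - G.R) (g + G.R),
      (if 1 ≤ g' then G.Kz 0 (epsn lam n) (zn G.rho w n) g g' * v0 n g' else 0)) atTop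
      (𝓝 (1 - ∑ g' ∈ Icc (g - G.R) (g + G.R), (if 1 ≤ g' then (G.Kc g g' : ℂ) * 1 else 0))) := by
    refine (v0_to_one hST h lam hlam w hw v0 hv0 g hg).sub (tendsto_finsetSum _ fun g' _ => ?_)
    split_ifs with hg'
    · exact (Kz_to G lam hlam w hw g g' hg hg').mul (v0_to_one hST h lam hlam w hw v0 hv0 g' hg')
    · exact tendsto_const_nhds
  have e1 : (1 : ℂ) - ∑ g' ∈ Icc (g - G.R) (g + G.R), (if 1 ≤ g' then (G.Kc g g' : ℂ) * 1 else 0)
      = (G.kap g : ℂ) := by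
    unfold GapKernel.kap
    push_cast
    congr 1
    refine Finset.sum_congr rfl fun g' _ => ?_
    split_ifs with hg'
    · ring
    · rw [G.Kc_out g g' (by omega)]
      simp
  rw [e1] at h1
  refine h1.congr' ?_
  have hNlarge : ∀ᶠ n : ℕ in atTop, g + G.R ≤ N n := by
    filter_upwards [eventually_ge_atTop (g + G.R).toNat, eventually_ge_atTop 1] with n hn hn1
    have := h.big n
    have h2 : n ≤ n ^ 2 := by nlinarith
    have : n ≤ N n := by omega
    omega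
  filter_upwards [hNlarge] with n hn
  unfold GapKernel.Lop GapKernel.Kap
  congr 1
  rw [← Finset.sum_filter]
  have e2 : ∑ g' ∈ Icc (1 : ℤ) (N n), G.Kz 0 (epsn lam n) (zn G.rho w n) g g' * v0 n g'
      = ∑ g' ∈ (Icc (1 : ℤ) (N n)).filter (fun g' => |g' - g| ≤ (G.R : ℤ)),
        G.Kz 0 (epsn lam n) (zn G.rho w n) g g' * v0 n g' := by
    rw [Finset.sum_filter]
    refine Finset.sum_congr rfl fun g' _ => ?_
    split_ifs with hh
    · rfl
    · rw [G.Kz_range 0 _ _ g g' (not_le.mp hh), zero_mul]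
  rw [e2]
  refine Finset.sum_congr ?_ fun _ _ => rfl
  ext x
  simp only [Finset.mem_filter, Finset.mem_Icc, abs_le]
  omega

end

lemma nsq_add3 (N : ℕ) (a b c : ℤ → ℂ) :
    nsq N (fun g => a g + b g + c g) ≤ 3 * (nsq N a + nsq N b + nsq N c) := by
  unfold nsq
  rw [← Finset.sum_add_distrib, ← Finset.sum_add_distrib, Finset.mul_sum]
  refine Finset.sum_le_sum fun g _ => ?_
  have h1 : ‖a g + b g + c g‖ ≤ ‖a g‖ + ‖b g‖ + ‖c g‖ := norm_add₃_le
  have h2 : ‖a g + b g + c g‖ ^ 2 ≤ (‖a g‖ + ‖b g‖ + ‖c g‖) ^ 2 := by gcongr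
  nlinarith [sq_nonneg (‖a g‖ - ‖b g‖), sq_nonneg (‖a g‖ - ‖c g‖), sq_nonneg (‖b g‖ - ‖c g‖)]

lemma nsq_congr (N : ℕ) (a b : ℤ → ℂ) (h : ∀ g ∈ Icc (1 : ℤ) N, a g = b g) : nsq N a = nsq N b :=
  Finset.sum_congr rfl fun g hg => by rw [h g hg]

theorem E (hRE : RE_Stmt) (hSUP : SUP_Stmt) (hW : W_Stmt) (hVEX : VEX_Stmt) (hVLIM : VLIM_Stmt)
    (hST : ST1_Stmt) (hEB : EB_Stmt) : E_Stmt := by
  intro G C0 s hs
  -- the critical source
  set sr : ℤ → ℝ := fun g => ∑ m ∈ range (C0 + 1), G.rho ^ m * s m g with hsr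
  have hrho := G.rho_pos
  have hsr0 : ∀ g, 0 ≤ sr g := fun g => Finset.sum_nonneg fun m _ =>
    mul_nonneg (pow_nonneg hrho.le _) (hs.nonneg m g)
  have hsrs : ∀ g : ℤ, (g < 1 ∨ (C0 : ℤ) < g) → sr g = 0 := by
    intro g hg
    refine Finset.sum_eq_zero fun m _ => ?_
    rw [hs.supp_g m g hg, mul_zero]
  have hsrp : ∃ g, 0 < sr g := by
    obtain ⟨m, g, hmg⟩ := hs.nontriv
    refine ⟨g, lt_of_lt_of_le (mul_pos (pow_pos hrho m) hmg) ?_⟩
    refine Finset.single_le_sum (f := fun m => G.rho ^ m * s m g)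
      (fun m _ => mul_nonneg (pow_nonneg hrho.le _) (hs.nonneg m g)) ?_
    rw [Finset.mem_range]
    by_contra hlt
    rw [hs.supp_m m g (by omega)] at hmg
    exact lt_irrefl _ hmg
  obtain ⟨vc, hvc0, hvcn, hvcb, hvce, hvceq⟩ := hVEX G C0 sr hsr0 hsrs
  obtain ⟨A, hA, Cv, hCv⟩ := hVLIM G C0 sr vc hsr0 hsrp hsrs hvc0 hvcn hvcb hvce hvceq
  refine ⟨A, hA, ?_⟩
  intro n0 N h lam w hlam hw v v0 hsol
  have hv0 : ∀ n, 1 ≤ n → 1 ≤ n0 n →
      stair.Solves (epsn (lam0 G lam) (n0 n)) (zn (1 / 4) w (n0 n)) (N n) (v0 n)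
          (src1 (zn (1 / 4) w (n0 n))) := fun n h1 h2 => (hsol n h1 h2).2
  have hCv0 : 0 ≤ Cv := le_trans (Finset.sum_nonneg fun g _ => by positivity) (hCv 0)
  set R' : ℕ := max C0 G.R with hR'
  obtain ⟨Cr, hCr, hr⟩ := hRE G
  obtain ⟨Cw, hCw, hw'⟩ := hW G R'
  obtain ⟨CD, hCD, hD⟩ := nsq_Df G
  -- the two parts of the source
  set e1 : ℕ → ℤ → ℂ := fun n g => if g ≤ (R' : ℤ) then
    (capz C0 s 0 (zn G.rho w n) g - (sr g : ℂ))
      - (A : ℂ) * (G.Lop (epsn lam n) (zn G.rho w n) (N n) (v0 n) g - (G.kap g : ℂ)) else 0 with he1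
  set edge : ℕ → ℤ → ℂ := fun n g =>
    ((∑ g' ∈ (Icc (g - G.R) (g + G.R)).filter (fun g' => ((N n : ℕ) : ℤ) < g'),
      G.Kc g g' * (vc g' - A) : ℝ) : ℂ) with hedge
  set D : ℕ → ℤ → ℂ := fun n => Df G (epsn lam n) (zn G.rho w n) (N n) (Yf (N n) vc A) with hDdef
  set e2 : ℕ → ℤ → ℂ := fun n g => (if (R' : ℤ) < g then
    -((A : ℂ) * G.Lop (epsn lam n) (zn G.rho w n) (N n) (v0 n) g) else 0)
      + (-edge n g) + (-D n g) with he2
  set W : ℕ → ℤ → ℂ := fun n g => v n g - (A : ℂ) * v0 n g - Yf (N n) vc A g with hWdef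
  -- existence of W1
  have hex : ∀ n : ℕ, ∃ u : ℤ → ℂ, G.Solves (epsn lam n) (zn G.rho w n) (N n) u (e1 n) := by
    intro n
    exact (hr (N n) (epsn lam n) (zn G.rho w n) (epsn_nonneg _ hlam _)
      (zn_norm_le _ hrho w hw _)).1 (e1 n)
  choose W1 hW1 using hex
  have hLsub : ∀ (n : ℕ) (f k : ℤ → ℂ) (g : ℤ),
      G.Lop (epsn lam n) (zn G.rho w n) (N n) (fun x => f x - k x) g
      = G.Lop (epsn lam n) (zn G.rho w n) (N n) f g
        - G.Lop (epsn lam n) (zn G.rho w n) (N n) k g := by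
    intro n f k g
    unfold GapKernel.Lop
    rw [Kap_sub]
    ring
  have hLsmul : ∀ (n : ℕ) (c : ℂ) (f : ℤ → ℂ) (g : ℤ),
      G.Lop (epsn lam n) (zn G.rho w n) (N n) (fun x => c * f x) g
      = c * G.Lop (epsn lam n) (zn G.rho w n) (N n) f g := by
    intro n c f g
    unfold GapKernel.Lop
    rw [Kap_smul]
    ring
  -- equation for W
  have hWeq : ∀ n, 1 ≤ n → 1 ≤ n0 n → ∀ g ∈ Icc (1 : ℤ) (N n),
      G.Lop (epsn lam n) (zn G.rho w n) (N n) (W n) g = e1 n g + e2 n g := by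
    intro n hn hn0 g hg
    have hg' := Finset.mem_Icc.mp hg
    have hL : G.Lop (epsn lam n) (zn G.rho w n) (N n) (W n) g
        = capz C0 s 0 (zn G.rho w n) g
          - (A : ℂ) * G.Lop (epsn lam n) (zn G.rho w n) (N n) (v0 n) g
          - G.Lop (epsn lam n) (zn G.rho w n) (N n) (Yf (N n) vc A) g := by
      have e3 : W n = fun x => (fun y => v n y - (fun z => (A : ℂ) * v0 n z) y) x
          - Yf (N n) vc A x := rfl
      rw [e3, hLsub, hLsub, hLsmul, (hsol n hn hn0).1.2 g hg]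
    rw [hL, Lop_eq_crit G (epsn lam n) (zn G.rho w n) (N n) (Yf (N n) vc A) g,
      Lop_Yf G (N n) sr vc A hvceq g hg]
    simp only [he1, he2, hedge, hDdef]
    by_cases hgR : g ≤ (R' : ℤ)
    · rw [if_pos hgR, if_neg (by omega)]
      push_cast
      ring
    · rw [if_neg hgR, if_pos (by omega)]
      have h1 : (C0 : ℤ) < g := by
        have : C0 ≤ R' := le_max_left _ _
        omega
      have h2 : (G.R : ℤ) < g := by
        have : G.R ≤ R' := le_max_right _ _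
        omega
      have h3 : capz C0 s 0 (zn G.rho w n) g = 0 := by
        unfold capz
        refine Finset.sum_eq_zero fun m _ => ?_
        rw [hs.supp_g m g (Or.inr h1)]
        simp
      rw [h3, hsrs g (Or.inr h1), G.kap_eq_zero g h2]
      push_cast
      ring
  have hW2 : ∀ n, 1 ≤ n → 1 ≤ n0 n →
      G.Solves (epsn lam n) (zn G.rho w n) (N n) (fun g => W n g - W1 n g) (e2 n) := by
    intro n hn hn0
    refine ⟨fun g hg => ?_, fun g hg => ?_⟩
    · have h1 := (hsol n hn hn0).1.1 g hg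
      have h2 := (hsol n hn hn0).2.1 g hg
      have h3 := (hW1 n).1 g hg
      have h4 : Yf (N n) vc A g = 0 := by
        unfold Yf
        rw [if_neg]
        omega
      simp only [hWdef, h1, h2, h3, h4]
      ring
    · rw [hLsub, hWeq n hn hn0 g hg, (hW1 n).2 g hg]
      ring
  -- δ asymptotics
  set δ : ℕ → ℝ := fun n => ‖(G.rho : ℂ) - zn G.rho w n‖ with hδ
  have hwn : 0 < ‖w‖ := by
    rw [norm_pos_iff]
    rintro rfl
    simp at hw
  have hnd : Tendsto (fun n : ℕ => (n : ℝ) * δ n) atTop (𝓝 (G.rho * ‖w‖)) :=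
    tendsto_zn_norm G.rho hrho w id tendsto_id
  have hndpos : 0 < G.rho * ‖w‖ := by positivity
  -- l1 e1 → 0
  have hl1 : Tendsto (fun n : ℕ => l1 R' (e1 n)) atTop (𝓝 0) := by
    unfold l1
    have h0 : (0 : ℝ) = ∑ g ∈ Icc (1 : ℤ) (R' : ℕ), (0 : ℝ) := by simp
    rw [h0]
    refine tendsto_finsetSum _ fun g hg => ?_
    rw [Finset.mem_Icc] at hg
    have hcap : Tendsto (fun n : ℕ => capz C0 s 0 (zn G.rho w n) g) atTop (𝓝 (sr g : ℂ)) := by
      have e3 : (sr g : ℂ) = ∑ m ∈ range (C0 + 1), ((m : ℂ)) ^ 0 * (G.rho : ℂ) ^ m * ((s m g : ℝ) : ℂ) := by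
        simp only [hsr]
        push_cast
        refine Finset.sum_congr rfl fun m _ => ?_
        ring
      rw [e3]
      unfold capz
      refine tendsto_finsetSum _ fun m _ => ?_
      exact (((zn_to G w).pow m).const_mul _).mul_const _
    have h2 := (hcap.sub_const (sr g : ℂ)).sub
      (((Lop_to_kap hST h lam hlam w hw v0 hv0 g hg.1).sub_const (G.kap g : ℂ)).const_mul (A : ℂ))
    have h3 := h2.norm
    simp only [sub_self, mul_zero, norm_zero] at h3
    refine h3.congr fun n => ?_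
    simp only [he1]
    rw [if_pos hg.2]
  -- W1
  have hT1 : Tendsto (fun n : ℕ => nsq (N n) (W1 n) / Real.sqrt n) atTop (𝓝 0) := by
    have hb : Tendsto (fun n : ℕ => Cw * (l1 R' (e1 n)) ^ 2 / Real.sqrt ((n : ℝ) * δ n)) atTop (𝓝 0) := by
      have h1 : Tendsto (fun n : ℕ => Cw * (l1 R' (e1 n)) ^ 2 / Real.sqrt ((n : ℝ) * δ n)) atTop
          (𝓝 (Cw * 0 ^ 2 / Real.sqrt (G.rho * ‖w‖))) :=
        ((hl1.pow 2).const_mul Cw).div ((Real.continuous_sqrt.tendsto _).comp hnd)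
          (Real.sqrt_pos.mpr hndpos).ne'
      have e3 : Cw * 0 ^ 2 / Real.sqrt (G.rho * ‖w‖) = 0 := by simp
      rw [e3] at h1
      exact h1
    refine squeeze_zero' (Eventually.of_forall fun n => div_nonneg (nsq_nonneg _ _) (Real.sqrt_nonneg _)) ?_ hb
    filter_upwards [eventually_ge_atTop 1] with n hn
    have hne := zn_ne G.rho hrho w hw n hn
    have h1 := (hw' (N n) (epsn lam n) (zn G.rho w n) (W1 n) (e1 n) (epsn_nonneg _ hlam _)
      (zn_norm_le _ hrho w hw _) hne (hW1 n) (by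
        intro g hg
        simp only [he1]
        rw [if_neg (by omega)])).1 0 (by norm_num)
    rw [nsq_mulg_zero, pow_zero, mul_one] at h1
    have hδpos : 0 < δ n := norm_pos_iff.mpr (sub_ne_zero.mpr hne.symm)
    have hn' : (0 : ℝ) < n := by exact_mod_cast hn
    calc nsq (N n) (W1 n) / Real.sqrt n ≤ (Cw * (l1 R' (e1 n)) ^ 2 / Real.sqrt (δ n)) / Real.sqrt n := by
          gcongr
      _ = _ := by
          rw [Real.sqrt_mul hn'.le, div_div]
          congr 1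
          ring
  -- e2
  have hbulk := bulk_small hSUP hW hEB h lam hlam w hw v0 hv0
  have hE2 : Tendsto (fun n : ℕ => qn n ^ 6 * nsq (N n) (e2 n)) atTop (𝓝 0) := by
    have hi := inv_qn
    have hee : Tendsto (fun n : ℕ => (n : ℝ) * epsn lam n) atTop (𝓝 0) := by
      have h1 : Tendsto (fun n : ℕ => lam / Real.sqrt n) atTop (𝓝 0) := sqrt_atTop.const_div_atTop lam
      refine h1.congr' ?_
      filter_upwards [eventually_ge_atTop 1] with n hn
      have hn' : (0 : ℝ) < n := by exact_mod_cast hn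
      unfold epsn
      field_simp
    have hb : Tendsto (fun n : ℕ => 3 * (A ^ 2 * (qn n ^ 3 * Real.sqrt (∑ g ∈ Icc ((G.R : ℤ) + 1) (N n),
          ‖G.Lop (epsn lam n) (zn G.rho w n) (N n) (v0 n) g‖ ^ 2)) ^ 2
        + (2 * G.R + 1) ^ 3 * Cv * ((qn n)⁻¹) ^ 10
        + CD * Cv * ((n : ℝ) * δ n + (n : ℝ) * epsn lam n) ^ 2 * ((qn n)⁻¹) ^ 2)) atTop (𝓝 0) := by
      have h1 := (((hbulk.pow 2).const_mul (A ^ 2)).add ((hi.pow 10).const_mul ((2 * G.R + 1) ^ 3 * Cv))).add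
        ((((hnd.add hee).pow 2).const_mul (CD * Cv)).mul (hi.pow 2)) |>.const_mul 3
      simpa using h1
    refine squeeze_zero' (Eventually.of_forall fun n => mul_nonneg (by positivity [qn_nonneg n]) (nsq_nonneg _ _)) ?_ hb
    filter_upwards [eventually_ge_atTop 1] with n hn
    have hq := qn_pos n hn
    have hn' : (0 : ℝ) < n := by exact_mod_cast hn
    have hNn : 1 ≤ N n := by
      have := h.big n
      nlinarith
    have hN8 : qn n ^ 8 ≤ (N n : ℝ) := by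
      have h1 : 4 * n ^ 2 ≤ N n := by have := h.big n; omega
      have h2 : (4 : ℝ) * n ^ 2 ≤ N n := by exact_mod_cast h1
      have h3 : qn n ^ 8 = (qn n ^ 4) ^ 2 := by ring
      rw [h3, qn_four]
      nlinarith [sq_nonneg (n : ℝ)]
    have h3 := nsq_add3 (N n) (fun g => if (R' : ℤ) < g then
      -((A : ℂ) * G.Lop (epsn lam n) (zn G.rho w n) (N n) (v0 n) g) else 0)
      (fun g => -edge n g) (fun g => -D n g)
    have h4 : nsq (N n) (fun g => if (R' : ℤ) < g then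
        -((A : ℂ) * G.Lop (epsn lam n) (zn G.rho w n) (N n) (v0 n) g) else 0)
        ≤ A ^ 2 * ∑ g ∈ Icc ((G.R : ℤ) + 1) (N n),
          ‖G.Lop (epsn lam n) (zn G.rho w n) (N n) (v0 n) g‖ ^ 2 := by
      unfold nsq
      rw [Finset.mul_sum]
      calc ∑ g ∈ Icc (1 : ℤ) (N n), ‖(if (R' : ℤ) < g then
            -((A : ℂ) * G.Lop (epsn lam n) (zn G.rho w n) (N n) (v0 n) g) else 0)‖ ^ 2
          = ∑ g ∈ (Icc (1 : ℤ) (N n)).filter (fun g => (R' : ℤ) < g),
            A ^ 2 * ‖G.Lop (epsn lam n) (zn G.rho w n) (N n) (v0 n) g‖ ^ 2 := by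
            rw [Finset.sum_filter]
            refine Finset.sum_congr rfl fun g _ => ?_
            split_ifs
            · rw [norm_neg, norm_mul, mul_pow, Complex.norm_real, Real.norm_eq_abs, sq_abs]
            · simp
        _ ≤ _ := by
            refine Finset.sum_le_sum_of_subset_of_nonneg ?_ (fun _ _ _ => by positivity)
            intro x hx
            simp only [Finset.mem_filter, Finset.mem_Icc] at hx ⊢
            have : G.R ≤ R' := le_max_right _ _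
            omega
    have h5 : nsq (N n) (fun g => -edge n g) ≤ (2 * G.R + 1) ^ 3 * Cv / (N n) ^ 2 := by
      have := nsq_edge G vc A Cv hCv (N n) hNn
      refine le_trans (le_of_eq ?_) this
      unfold nsq
      refine Finset.sum_congr rfl fun g _ => ?_
      rw [norm_neg]
    have h6 : nsq (N n) (fun g => -D n g) ≤ CD * (δ n + epsn lam n) ^ 2 * Cv := by
      have := hD (epsn lam n) (zn G.rho w n) (N n) vc A Cv (epsn_nonneg _ hlam _)
        (zn_norm_le _ hrho w hw _) (hCv (N n))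
      refine le_trans (le_of_eq ?_) this
      unfold nsq
      refine Finset.sum_congr rfl fun g _ => ?_
      rw [norm_neg]
    have h7 : (2 * G.R + 1) ^ 3 * Cv / (N n : ℝ) ^ 2 ≤ (2 * G.R + 1) ^ 3 * Cv * ((qn n)⁻¹) ^ 16 := by
      rw [div_eq_mul_inv]
      gcongr
      rw [inv_pow]
      gcongr
      calc qn n ^ 16 = (qn n ^ 8) ^ 2 := by ring
        _ ≤ _ := by gcongr
    set Sg := ∑ g ∈ Icc ((G.R : ℤ) + 1) (N n),
          ‖G.Lop (epsn lam n) (zn G.rho w n) (N n) (v0 n) g‖ ^ 2 with hSg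
    have hSg0 : 0 ≤ Sg := Finset.sum_nonneg fun _ _ => sq_nonneg _
    have h8 : nsq (N n) (e2 n) ≤ 3 * (A ^ 2 * Sg + (2 * G.R + 1) ^ 3 * Cv * ((qn n)⁻¹) ^ 16
        + CD * (δ n + epsn lam n) ^ 2 * Cv) := by
      refine h3.trans ?_
      have := h5.trans h7
      linarith
    calc qn n ^ 6 * nsq (N n) (e2 n) ≤ qn n ^ 6 * (3 * (A ^ 2 * Sg
          + (2 * G.R + 1) ^ 3 * Cv * ((qn n)⁻¹) ^ 16 + CD * (δ n + epsn lam n) ^ 2 * Cv)) := by
          gcongr
      _ = _ := by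
          rw [mul_pow (qn n ^ 3), Real.sq_sqrt hSg0, ← qn_four n]
          field_simp
  -- W2
  have hT2 : Tendsto (fun n : ℕ => nsq (N n) (fun g => W n g - W1 n g) / Real.sqrt n) atTop (𝓝 0) := by
    have hb : Tendsto (fun n : ℕ => Cr ^ 2 / ((n : ℝ) * δ n) ^ 2 * (qn n ^ 6 * nsq (N n) (e2 n))) atTop (𝓝 0) := by
      have h1 : Tendsto (fun n : ℕ => Cr ^ 2 / ((n : ℝ) * δ n) ^ 2) atTop (𝓝 (Cr ^ 2 / (G.rho * ‖w‖) ^ 2)) :=
        tendsto_const_nhds.div (hnd.pow 2) (pow_pos hndpos 2).ne'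
      simpa using h1.mul hE2
    refine squeeze_zero' (Eventually.of_forall fun n => div_nonneg (nsq_nonneg _ _) (Real.sqrt_nonneg _)) ?_ hb
    filter_upwards [eventually_ge_atTop 1, h.ev_n0] with n hn hn0
    have hne := zn_ne G.rho hrho w hw n hn
    have hδpos : 0 < δ n := norm_pos_iff.mpr (sub_ne_zero.mpr hne.symm)
    have hn' : (0 : ℝ) < n := by exact_mod_cast hn
    have hq := qn_pos n hn
    have h1 := ((hr (N n) (epsn lam n) (zn G.rho w n) (epsn_nonneg _ hlam _)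
      (zn_norm_le _ hrho w hw _)).2.2 _ _ (hW2 n hn hn0)).1
    set X := nsq (N n) (fun g => W n g - W1 n g) with hX
    have hX0 : 0 ≤ X := nsq_nonneg _ _
    have hE0 := nsq_nonneg (N n) (e2 n)
    have h2 : δ n ^ 2 * X ≤ Cr ^ 2 * nsq (N n) (e2 n) := by
      have h3 : (δ n * Real.sqrt X) ^ 2 ≤ (Cr * Real.sqrt (nsq (N n) (e2 n))) ^ 2 := by
        gcongr
      rw [mul_pow, mul_pow, Real.sq_sqrt hX0, Real.sq_sqrt hE0] at h3
      exact h3
    have h4 : X ≤ Cr ^ 2 * nsq (N n) (e2 n) / δ n ^ 2 := by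
      rw [le_div_iff₀ (by positivity)]
      linarith
    calc X / Real.sqrt n ≤ (Cr ^ 2 * nsq (N n) (e2 n) / δ n ^ 2) / Real.sqrt n := by gcongr
      _ = _ := by
          rw [← qn_sq n, ← qn_four n]
          field_simp
  -- Y
  have hT3 : Tendsto (fun n : ℕ => nsq (N n) (Yf (N n) vc A) / Real.sqrt n) atTop (𝓝 0) := by
    refine squeeze_zero (fun n => div_nonneg (nsq_nonneg _ _) (Real.sqrt_nonneg _)) (fun n => ?_)
      (sqrt_atTop.const_div_atTop Cv)
    have := nsq_Yf (N n) vc A Cv (hCv (N n))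
    gcongr
  -- conclusion
  have hfin : Tendsto (fun n : ℕ => 3 * (nsq (N n) (W1 n) / Real.sqrt n
      + nsq (N n) (fun g => W n g - W1 n g) / Real.sqrt n
      + nsq (N n) (Yf (N n) vc A) / Real.sqrt n)) atTop (𝓝 0) := by
    have := ((hT1.add hT2).add hT3).const_mul 3
    simpa using this
  refine squeeze_zero (fun n => div_nonneg (nsq_nonneg _ _) (Real.sqrt_nonneg _)) (fun n => ?_) hfin
  have h1 := nsq_add3 (N n) (W1 n) (fun g => W n g - W1 n g) (Yf (N n) vc A)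
  have h2 : nsq (N n) (fun g => W1 n g + (W n g - W1 n g) + Yf (N n) vc A g)
      = nsq (N n) (fun g => v n g - (A : ℂ) * v0 n g) := by
    refine nsq_congr _ _ _ fun g _ => ?_
    simp only [hWdef]
    ring
  rw [h2] at h1
  calc nsq (N n) (fun g => v n g - (A : ℂ) * v0 n g) / Real.sqrt n
      ≤ (3 * (nsq (N n) (W1 n) + nsq (N n) (fun g => W n g - W1 n g)
        + nsq (N n) (Yf (N n) vc A))) / Real.sqrt n := by gcongr
    _ = _ := by ring

end Pool.Agent.Gap
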