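import Mathlib
import Pool.Agent.Lib_helper79.Gap.EBulk

/-! Module LT: Laplace comparison. -/

set_option autoImplicit false

open Finset Filter Topology

namespace Pool.Agent.Gap

lemma isCap_cap1 : IsCap 1 cap1 where
  nonneg := by
    intro m g
    unfold cap1
    split_ifs <;> norm_num
  supp_m := by
    intro m g h
    unfold cap1
    rw [if_neg]
    omega
  supp_g := by
    intro m g h
    unfold cap1
    rw [if_neg]
    push_cast at h
    omega
  nontriv := ⟨1, 1, by unfold cap1; simp⟩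

lemma capz_cap1 (z : ℂ) : capz 1 cap1 0 z = src1 z := by
  funext g
  unfold capz cap1 src1
  rw [Finset.sum_range_succ, Finset.sum_range_one]
  by_cases h : g = 1 <;> simp [h]

lemma mbar_stair : stair.mbar = 1 := by
  have h := stair.tot_one
  unfold GapKernel.mbar
  have hS : stair.S = {(1, 1)} := rfl
  have hr : stair.rho = 1 / 4 := rfl
  rw [hS, Finset.sum_singleton, h, hr]
  norm_num

lemma eval_closeP (C0 : ℕ) (t : ℕ → ℤ → ℝ) (B : ℕ → ℤ → Polynomial ℝ) (b : ℕ → ℤ → ℝ) (x : ℝ)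
    (n : ℕ) (h : ∀ m ≤ n, ∀ g, b m g = (B m g).eval x) :
    close C0 t b n = (closeP C0 t B n).eval x := by
  unfold close closeP
  rw [Polynomial.eval_finset_sum]
  refine Finset.sum_congr rfl fun m hm => ?_
  rw [Polynomial.eval_finset_sum]
  refine Finset.sum_congr rfl fun g _ => ?_
  rw [Polynomial.eval_mul, Polynomial.eval_C, h (n - m) (Nat.sub_le n m)]

/-- Cauchy-Schwarz for the bilinear pairing -/
lemma norm_sum_mul_le (N : ℕ) (f h : ℤ → ℂ) :
    ‖∑ g ∈ Icc (1 : ℤ) N, f g * h g‖ ≤ Real.sqrt (nsq N f) * Real.sqrt (nsq N h) := by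
  refine (norm_sum_le _ _).trans ?_
  simp only [norm_mul]
  exact Real.sum_mul_le_sqrt_mul_sqrt _ _ _

lemma nsq_add_le (N : ℕ) (a b : ℤ → ℂ) :
    nsq N (fun g => a g + b g) ≤ 2 * (nsq N a + nsq N b) := by
  unfold nsq
  rw [← Finset.sum_add_distrib, Finset.mul_sum]
  refine Finset.sum_le_sum fun g _ => ?_
  have h1 : ‖a g + b g‖ ≤ ‖a g‖ + ‖b g‖ := norm_add_le _ _
  have h2 : ‖a g + b g‖ ^ 2 ≤ (‖a g‖ + ‖b g‖) ^ 2 := by gcongr
  nlinarith [sq_nonneg (‖a g‖ - ‖b g‖)]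

lemma nsq_smul (N : ℕ) (c : ℂ) (a : ℤ → ℂ) : nsq N (fun g => c * a g) = ‖c‖ ^ 2 * nsq N a := by
  unfold nsq
  rw [Finset.mul_sum]
  refine Finset.sum_congr rfl fun g _ => ?_
  rw [norm_mul, mul_pow]

/-- convergence of the bilinear pairing from the comparison of the two solutions -/
lemma pairing_limit (N : ℕ → ℕ) (V W V0 : ℕ → ℤ → ℂ) (A A' : ℝ) (C : ℝ)
    (hV0 : ∀ᶠ n in atTop, Real.sqrt (nsq (N n) (V0 n)) ≤ C * qn n)
    (h1 : Tendsto (fun n : ℕ => nsq (N n) (fun g => V n g - (A : ℂ) * V0 n g) / Real.sqrt n) atTop (𝓝 0))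
    (h2 : Tendsto (fun n : ℕ => nsq (N n) (fun g => W n g - (A' : ℂ) * V0 n g) / Real.sqrt n) atTop (𝓝 0)) :
    Tendsto (fun n : ℕ => ((∑ g ∈ Icc (1 : ℤ) (N n), V n g * W n g)
      - ((A * A' : ℝ) : ℂ) * ∑ g ∈ Icc (1 : ℤ) (N n), V0 n g * V0 n g) / ((Real.sqrt n : ℝ) : ℂ))
      atTop (𝓝 0) := by
  -- square roots
  have hs1 : Tendsto (fun n : ℕ => Real.sqrt (nsq (N n) (fun g => V n g - (A : ℂ) * V0 n g) / Real.sqrt n))
      atTop (𝓝 0) := by
    have := (Real.continuous_sqrt.tendsto 0).comp h1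
    rwa [Real.sqrt_zero] at this
  have hs2 : Tendsto (fun n : ℕ => Real.sqrt (nsq (N n) (fun g => W n g - (A' : ℂ) * V0 n g) / Real.sqrt n))
      atTop (𝓝 0) := by
    have := (Real.continuous_sqrt.tendsto 0).comp h2
    rwa [Real.sqrt_zero] at this
  set x : ℕ → ℝ := fun n => Real.sqrt (nsq (N n) (fun g => V n g - (A : ℂ) * V0 n g) / Real.sqrt n) with hx
  set y : ℕ → ℝ := fun n => Real.sqrt (nsq (N n) (fun g => W n g - (A' : ℂ) * V0 n g) / Real.sqrt n) with hy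
  have hb : Tendsto (fun n : ℕ => x n * (y n + |A'| * C) + |A| * (C * y n)) atTop (𝓝 0) := by
    have := (hs1.mul (hs2.add_const (|A'| * C))).add ((hs2.const_mul C).const_mul |A|)
    simpa using this
  rw [tendsto_zero_iff_norm_tendsto_zero]
  refine squeeze_zero' (Eventually.of_forall fun n => norm_nonneg _) ?_ hb
  filter_upwards [hV0, eventually_ge_atTop 1] with n hn hn1
  have hq := qn_pos n hn1
  have hqs : qn n * qn n = Real.sqrt n := by rw [← qn_sq n]; ring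
  have ex : Real.sqrt (nsq (N n) (fun g => V n g - (A : ℂ) * V0 n g)) = x n * qn n := by
    simp only [hx]
    rw [Real.sqrt_div (nsq_nonneg _ _)]
    unfold qn at hq ⊢
    field_simp
  have ey : Real.sqrt (nsq (N n) (fun g => W n g - (A' : ℂ) * V0 n g)) = y n * qn n := by
    simp only [hy]
    rw [Real.sqrt_div (nsq_nonneg _ _)]
    unfold qn at hq ⊢
    field_simp
  have hx0 : 0 ≤ x n := Real.sqrt_nonneg _
  have hy0 : 0 ≤ y n := Real.sqrt_nonneg _
  have e1 : (∑ g ∈ Icc (1 : ℤ) (N n), V n g * W n g)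
      - ((A * A' : ℝ) : ℂ) * ∑ g ∈ Icc (1 : ℤ) (N n), V0 n g * V0 n g
      = (∑ g ∈ Icc (1 : ℤ) (N n), (V n g - (A : ℂ) * V0 n g) * (W n g - (A' : ℂ) * V0 n g))
        + (A' : ℂ) * (∑ g ∈ Icc (1 : ℤ) (N n), (V n g - (A : ℂ) * V0 n g) * V0 n g)
        + (A : ℂ) * (∑ g ∈ Icc (1 : ℤ) (N n), V0 n g * (W n g - (A' : ℂ) * V0 n g)) := by
    rw [Finset.mul_sum, Finset.mul_sum, Finset.mul_sum, ← Finset.sum_sub_distrib,
      ← Finset.sum_add_distrib, ← Finset.sum_add_distrib]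
    refine Finset.sum_congr rfl fun g _ => ?_
    push_cast
    ring
  rw [norm_div, Complex.norm_real, Real.norm_of_nonneg (Real.sqrt_nonneg _), ← hqs,
    div_le_iff₀ (by positivity), e1]
  have t1 := norm_sum_mul_le (N n) (fun g => V n g - (A : ℂ) * V0 n g) (fun g => W n g - (A' : ℂ) * V0 n g)
  have t2 := norm_sum_mul_le (N n) (fun g => V n g - (A : ℂ) * V0 n g) (V0 n)
  have t3 := norm_sum_mul_le (N n) (V0 n) (fun g => W n g - (A' : ℂ) * V0 n g)
  rw [ex, ey] at t1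
  rw [ex] at t2
  rw [ey] at t3
  refine norm_add₃_le.trans ?_
  rw [norm_mul, norm_mul, Complex.norm_real, Complex.norm_real, Real.norm_eq_abs, Real.norm_eq_abs]
  have s2 : ‖∑ g ∈ Icc (1 : ℤ) (N n), (V n g - (A : ℂ) * V0 n g) * V0 n g‖ ≤ x n * qn n * (C * qn n) :=
    t2.trans (by gcongr)
  have s3 : ‖∑ g ∈ Icc (1 : ℤ) (N n), V0 n g * (W n g - (A' : ℂ) * V0 n g)‖ ≤ C * qn n * (y n * qn n) :=
    t3.trans (by gcongr)
  have a1 := abs_nonneg A
  have a2 := abs_nonneg A'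
  calc _ ≤ x n * qn n * (y n * qn n) + |A'| * (x n * qn n * (C * qn n))
        + |A| * (C * qn n * (y n * qn n)) := by gcongr
    _ = _ := by ring

theorem LT (hE : E_Stmt) (hSUP : SUP_Stmt) (hW : W_Stmt) (hJ1 : J1_Stmt) (hJ2 : J2_Stmt)
    (hX : X_Stmt) (hB1 : B1_Stmt) : LT_Stmt := by
  intro G C0 s t hs ht B hB B0 hB0
  obtain ⟨As, hAs, hEs⟩ := hE G C0 s hs
  obtain ⟨At, hAt, hEt⟩ := hE G C0 t ht
  have hm := G.mbar_pos
  have hb := G.beta_pos
  set β := 2 * G.sig2 / G.mbar with hβ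
  refine ⟨G.mbar * (As * At) * Real.sqrt β, by positivity, ?_⟩
  intro n0 hn0 lam hlam
  have hl0 := lam0_nonneg (G := G) lam hlam
  set N : ℕ → ℕ := fun n => 4 * n ^ 2 + 4 * (n0 n) ^ 2 + C0 + (G.R + 1) * (n + 1) + 2 * (n0 n + 1) + 1
    with hN
  have hsc : Scales G n0 N := ⟨hn0, fun n => by simp only [hN]; omega⟩
  -- arrays
  have hex : ∀ n, ∃ b, IsArr G s (epsn lam n) (N n) b := fun n =>
    (hJ1 G C0 s hs (N n) (epsn lam n) (epsn_nonneg _ hlam _)).1
  choose b hbA using hex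
  have hex' : ∀ n, ∃ b, IsArr G t (epsn lam n) (N n) b := fun n =>
    (hJ1 G C0 t ht (N n) (epsn lam n) (epsn_nonneg _ hlam _)).1
  choose b' hbA' using hex'
  have hex0 : ∀ n, ∃ b, IsArr stair cap1 (epsn (lam0 G lam) (n0 n)) (N n) b := fun n =>
    (hJ1 stair 1 cap1 isCap_cap1 (N n) (epsn (lam0 G lam) (n0 n)) (epsn_nonneg _ hl0 _)).1
  choose b0 hbA0 using hex0
  obtain ⟨C1, hC1, hJ⟩ := hJ2 G C0 s t hs ht
  obtain ⟨C2, hC2, hJ0⟩ := hJ2 stair 1 cap1 cap1 isCap_cap1 isCap_cap1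
  have hC0N : ∀ n, C0 ≤ N n := fun n => by simp only [hN]; omega
  have h1N : ∀ n, 1 ≤ N n := fun n => by simp only [hN]; omega
  have key := hX G.rho (1 / 4) β (G.mbar * (As * At)) (max C1 C2) n0
    (fun n => close C0 t (b n)) (fun n => close 1 cap1 (b0 n)) G.rho_pos (by norm_num) hb hn0
    (by
      intro n z hz
      obtain ⟨a1, _, a3, a4⟩ := hJ (N n) (epsn lam n) (epsn_nonneg _ hlam _) (hC0N n) (b n) (b' n)
        (hbA n) (hbA' n) z hz
      exact ⟨a1, a3.trans (le_max_left _ _), a4.trans (le_max_left _ _)⟩)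
    (by
      intro n z hz
      obtain ⟨a1, _, a3, a4⟩ := hJ0 (N n) (epsn (lam0 G lam) (n0 n)) (epsn_nonneg _ hl0 _) (h1N n)
        (b0 n) (b0 n) (hbA0 n) (hbA0 n) z hz
      have e4 : ((stair.rho : ℝ) : ℂ) = (((1 / 4 : ℝ) : ℝ) : ℂ) := rfl
      rw [e4] at a3 a4
      exact ⟨a1, a3.trans (le_max_right _ _), a4.trans (le_max_right _ _)⟩)
    (by
      intro w hw
      -- the solutions
      have hsol : ∀ n, 1 ≤ n → 1 ≤ n0 n →
          G.Solves (epsn lam n) (zn G.rho w n) (N n) (gf 0 (b n) (zn G.rho w n))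
            (capz C0 s 0 (zn G.rho w n)) := by
        intro n hn1 _
        have := ((hJ1 G C0 s hs (N n) (epsn lam n) (epsn_nonneg _ hlam _)).2 (b n) (hbA n)).2.2.2
          (zn G.rho w n) (zn_norm_lt _ G.rho_pos w hw n hn1) 0
        simpa using this
      have hsol' : ∀ n, 1 ≤ n → 1 ≤ n0 n →
          G.Solves (epsn lam n) (zn G.rho w n) (N n) (gf 0 (b' n) (zn G.rho w n))
            (capz C0 t 0 (zn G.rho w n)) := by
        intro n hn1 _
        have := ((hJ1 G C0 t ht (N n) (epsn lam n) (epsn_nonneg _ hlam _)).2 (b' n) (hbA' n)).2.2.2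
          (zn G.rho w n) (zn_norm_lt _ G.rho_pos w hw n hn1) 0
        simpa using this
      have hsol0 : ∀ n, 1 ≤ n → 1 ≤ n0 n →
          stair.Solves (epsn (lam0 G lam) (n0 n)) (zn (1 / 4) w (n0 n)) (N n)
            (gf 0 (b0 n) (zn (1 / 4) w (n0 n))) (src1 (zn (1 / 4) w (n0 n))) := by
        intro n _ hn0'
        have := ((hJ1 stair 1 cap1 isCap_cap1 (N n) (epsn (lam0 G lam) (n0 n))
          (epsn_nonneg _ hl0 _)).2 (b0 n) (hbA0 n)).2.2.2
          (zn (1 / 4) w (n0 n)) (zn_norm_lt _ (by norm_num) w hw _ hn0') 0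
        rw [← capz_cap1]
        simpa using this
      have c1 := hEs n0 N hsc lam w hlam hw (fun n => gf 0 (b n) (zn G.rho w n))
        (fun n => gf 0 (b0 n) (zn (1 / 4) w (n0 n))) (fun n h1 h2 => ⟨hsol n h1 h2, hsol0 n h1 h2⟩)
      have c2 := hEt n0 N hsc lam w hlam hw (fun n => gf 0 (b' n) (zn G.rho w n))
        (fun n => gf 0 (b0 n) (zn (1 / 4) w (n0 n))) (fun n h1 h2 => ⟨hsol' n h1 h2, hsol0 n h1 h2⟩)
      obtain ⟨Cq, hCq, hq⟩ := v0_bounds hSUP hW hsc lam hlam w hw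
        (fun n => gf 0 (b0 n) (zn (1 / 4) w (n0 n))) hsol0
      have hp := pairing_limit N (fun n => gf 0 (b n) (zn G.rho w n))
        (fun n => gf 0 (b' n) (zn G.rho w n)) (fun n => gf 0 (b0 n) (zn (1 / 4) w (n0 n)))
        As At Cq (hq.mono fun n hn => hn.1) c1 c2
      -- assemble
      have hsq : Tendsto (fun n : ℕ => (C1 + G.mbar * (As * At) * C2) / Real.sqrt n) atTop (𝓝 0) :=
        sqrt_atTop.const_div_atTop _
      have hp2 := (hp.norm.const_mul G.mbar).add hsq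
      rw [norm_zero, mul_zero, add_zero] at hp2
      rw [tendsto_zero_iff_norm_tendsto_zero]
      refine squeeze_zero' (Eventually.of_forall fun n => norm_nonneg _) ?_ hp2
      filter_upwards [eventually_ge_atTop 1, hsc.ev_n0] with n hn1 hn0'
      have hz := zn_norm_lt G.rho G.rho_pos w hw n hn1
      have hz0 := zn_norm_lt (1 / 4) (by norm_num) w hw (n0 n) hn0'
      obtain ⟨_, a2, _, _⟩ := hJ (N n) (epsn lam n) (epsn_nonneg _ hlam _) (hC0N n) (b n) (b' n)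
        (hbA n) (hbA' n) _ hz
      obtain ⟨_, d2, _, _⟩ := hJ0 (N n) (epsn (lam0 G lam) (n0 n)) (epsn_nonneg _ hl0 _) (h1N n)
        (b0 n) (b0 n) (hbA0 n) (hbA0 n) _ hz0
      rw [mbar_stair] at d2
      set P := ∑ g ∈ Icc (1 : ℤ) (N n), gf 0 (b n) (zn G.rho w n) g * gf 0 (b' n) (zn G.rho w n) g with hP
      set Q := ∑ g ∈ Icc (1 : ℤ) (N n), gf 0 (b0 n) (zn (1 / 4) w (n0 n)) g
        * gf 0 (b0 n) (zn (1 / 4) w (n0 n)) g with hQ
      have hsn : 0 < Real.sqrt n := by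
        have : (0 : ℝ) < n := by exact_mod_cast hn1
        positivity
      have e1 : sgf 1 (close C0 t (b n)) (zn G.rho w n)
          - ((G.mbar * (As * At) : ℝ) : ℂ) * sgf 1 (close 1 cap1 (b0 n)) (zn (1 / 4) w (n0 n))
          = (sgf 1 (close C0 t (b n)) (zn G.rho w n) - (G.mbar : ℂ) * P)
            + (G.mbar : ℂ) * (P - ((As * At : ℝ) : ℂ) * Q)
            + -(((G.mbar * (As * At) : ℝ) : ℂ) *
              (sgf 1 (close 1 cap1 (b0 n)) (zn (1 / 4) w (n0 n)) - ((1 : ℝ) : ℂ) * Q)) := by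
        push_cast
        ring
      rw [e1, norm_div, Complex.norm_real, Real.norm_of_nonneg hsn.le, norm_div, Complex.norm_real,
        Real.norm_of_nonneg hsn.le]
      have n3 := norm_add₃_le (a := sgf 1 (close C0 t (b n)) (zn G.rho w n) - (G.mbar : ℂ) * P)
        (b := (G.mbar : ℂ) * (P - ((As * At : ℝ) : ℂ) * Q))
        (c := -(((G.mbar * (As * At) : ℝ) : ℂ) *
              (sgf 1 (close 1 cap1 (b0 n)) (zn (1 / 4) w (n0 n)) - ((1 : ℝ) : ℂ) * Q)))
      rw [norm_neg, norm_mul, norm_mul, Complex.norm_real, Complex.norm_real,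
        Real.norm_of_nonneg hm.le, Real.norm_of_nonneg (by positivity)] at n3
      have hpos : 0 ≤ G.mbar * (As * At) := by positivity
      calc _ ≤ (C1 + G.mbar * ‖P - ((As * At : ℝ) : ℂ) * Q‖ + G.mbar * (As * At) * C2) / Real.sqrt n := by
            gcongr
            refine n3.trans ?_
            gcongr
        _ = _ := by ring)
  refine key.congr fun n => ?_
  have ev1 : close C0 t (b n) n = (closeP C0 t B n).eval (Real.exp (-(epsn lam n))) := by
    refine eval_closeP C0 t B (b n) _ n fun m hmn g => ?_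
    refine hB1 G C0 s hs B hB (N n) (epsn lam n) (b n) (epsn_nonneg _ hlam _) (hbA n) m ?_ g
    have : (G.R + 1) * (m + 1) ≤ (G.R + 1) * (n + 1) := Nat.mul_le_mul_left _ (by omega)
    simp only [hN]
    omega
  have ev0 : close 1 cap1 (b0 n) (n0 n)
      = (closeP 1 cap1 B0 (n0 n)).eval (Real.exp (-(epsn (lam0 G lam) (n0 n)))) := by
    refine eval_closeP 1 cap1 B0 (b0 n) _ (n0 n) fun m hmn g => ?_
    refine hB1 stair 1 cap1 isCap_cap1 B0 hB0 (N n) (epsn (lam0 G lam) (n0 n)) (b0 n)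
      (epsn_nonneg _ hl0 _) (hbA0 n) m ?_ g
    have hR : stair.R = 1 := rfl
    rw [hR]
    simp only [hN]
    nlinarith
  simp only [ev1, ev0]

end Pool.Agent.Gap
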