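import Mathlib
import Pool.Agent.Lib_helper79.Gap.E
import Pool.Agent.Lib_helper79.Gap.LT
import Pool.Agent.Lib_helper62.Gap.C
import Pool.Agent.Lib_helper62.Gap.C2
import Pool.Agent.Lib_helper62.Gap.ST1
import Pool.Agent.Lib_helper2.Gap.RE
import Pool.Agent.Lib_helper2.Gap.EB
import Pool.Agent.Lib_helper22.Gap.SUP
import Pool.Agent.Lib_helper22.Gap.W
import Pool.Agent.Lib_helper22.Gap.J2
import Pool.Agent.Lib_helper94.Gap.VEX
import Pool.Agent.Lib_helper94.Gap.VLIM
import Pool.Agent.Lib_helper94.Gap.LT1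
import Pool.Agent.Lib_helper24.Gap.J1
import Pool.Agent.Lib_helper24.Gap.B1
import Pool.Agent.Lib_helper24.Gap.M2b
import Pool.Agent.Lib_helper84.Gap.X
import Pool.Agent.Lib_helper84.Gap.X1
import Pool.Agent.Lib_helper73.Gap.LIM2
import Pool.Agent.Lib_helper35.Gap.FINAL

/-! Assembly of the analysis half. -/

set_option autoImplicit false

namespace Pool.Agent.Gap

/-- One universal law for all area models (module BAL still a hypothesis). -/
theorem final_of_BAL (hBAL : BAL_Stmt) : FINAL_Stmt := by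
  have hC2 : C2_Stmt := C2
  have hC : C_Stmt := C hC2
  have hRE : RE_Stmt := RE hC
  have hSUP : SUP_Stmt := SUP hC
  have hW : W_Stmt := W hC
  have hJ1 : J1_Stmt := J1
  have hJ2 : J2_Stmt := J2 hC2 hC hRE
  have hVEX : VEX_Stmt := VEX hRE hSUP
  have hVLIM : VLIM_Stmt := VLIM
  have hST : ST1_Stmt := ST1 hC
  have hEB : EB_Stmt := EB
  have hX : X_Stmt := X
  have hX1 : X1_Stmt := X1
  have hB1 : B1_Stmt := B1
  have hE : E_Stmt := E hRE hSUP hW hVEX hVLIM hST hEB
  have hLT : LT_Stmt := LT hE hSUP hW hJ1 hJ2 hX hB1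
  have hLT1 : LT1_Stmt := LT1 LIM2 hJ1 hJ2 hX1 hB1
  have hM2 : M2_Stmt := M2 hW
  exact FINAL hLT hLT1 hM2 hBAL

end Pool.Agent.Gap
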